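import Mathlib

/-! Completely multiplicative functions with prescribed values at the primes. -/

set_option autoImplicit false

namespace Pool.Agent.U955.TU

open Filter Topology

/-- the completely multiplicative function with prescribed values at the primes -/
noncomputable def cm (β : ℕ → ℂ) (n : ℕ) : ℂ := (n.primeFactorsList.map β).prod

lemma cm_one (β : ℕ → ℂ) : cm β 1 = 1 := by simp [cm]

lemma cm_mul (β : ℕ → ℂ) {m n : ℕ} (hm : m ≠ 0) (hn : n ≠ 0) :
    cm β (m * n) = cm β m * cm β n := by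
  unfold cm
  rw [((Nat.perm_primeFactorsList_mul hm hn).map β).prod_eq, List.map_append, List.prod_append]

lemma cm_prime (β : ℕ → ℂ) {p : ℕ} (hp : p.Prime) : cm β p = β p := by
  simp [cm, Nat.primeFactorsList_prime hp]

lemma cm_norm_le {β : ℕ → ℂ} (hβ : ∀ p, p.Prime → ‖β p‖ ≤ 1) (n : ℕ) : ‖cm β n‖ ≤ 1 := by
  have : ∀ l : List ℕ, (∀ p ∈ l, p.Prime) → ‖(l.map β).prod‖ ≤ 1 := by
    intro l
    induction l with
    | nil => intro _; simp
    | cons a l ih =>
      intro h
      rw [List.map_cons, List.prod_cons, norm_mul]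
      have h1 := hβ a (h a (by simp))
      have h2 := ih (fun p hp => h p (by simp [hp]))
      nlinarith [norm_nonneg (β a), norm_nonneg (l.map β).prod]
  exact this _ (fun p hp => Nat.prime_of_mem_primeFactorsList hp)

lemma cm_congr {β γ : ℕ → ℂ} {n : ℕ} (h : ∀ p, p.Prime → p ∣ n → β p = γ p) :
    cm β n = cm γ n := by
  unfold cm
  congr 1
  refine List.map_congr_left fun p hp => ?_
  exact h p (Nat.prime_of_mem_primeFactorsList hp) (Nat.dvd_of_mem_primeFactorsList hp)

lemma cm_mul_fun (β γ : ℕ → ℂ) (n : ℕ) : cm (fun p => β p * γ p) n = cm β n * cm γ n := by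
  unfold cm
  exact List.prod_map_mul

/-- a completely multiplicative function is determined by its values at primes -/
lemma eq_cm {h : ℕ → ℂ} (h1 : h 1 = 1) (hm : ∀ m n, m ≠ 0 → n ≠ 0 → h (m * n) = h m * h n)
    {n : ℕ} (hn : n ≠ 0) : h n = cm h n := by
  induction n using Nat.recOnMul with
  | zero => exact absurd rfl hn
  | one => rw [h1, cm_one]
  | prime p hp => rw [cm_prime _ hp]
  | mul a b iha ihb =>
    have ha : a ≠ 0 := fun h => hn (by simp [h])
    have hb : b ≠ 0 := fun h => hn (by simp [h])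
    rw [hm a b ha hb, cm_mul _ ha hb, iha ha, ihb hb]

lemma cm_cpow (z : ℂ) {n : ℕ} (hn : n ≠ 0) : cm (fun p => (p : ℂ) ^ z) n = (n : ℂ) ^ z := by
  have := eq_cm (h := fun n : ℕ => (n : ℂ) ^ z) (by simp) (by
    intro m n _ _
    simp only [Nat.cast_mul]
    rw [Complex.natCast_mul_natCast_cpow]) hn
  exact this.symm

lemma cm_char {k : ℕ} (χ : DirichletCharacter ℂ k) {n : ℕ} (hn : n ≠ 0) :
    cm (fun p => χ (p : ZMod k)) n = χ (n : ZMod k) := by
  have := eq_cm (h := fun n : ℕ => χ (n : ZMod k)) (by simp) (by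
    intro m n _ _
    simp only [Nat.cast_mul, map_mul]) hn
  exact this.symm

lemma tendsto_cm {ι : Type*} {l : Filter ι} {φ : ι → ℕ → ℂ} {ψ : ℕ → ℂ} {n : ℕ}
    (h : ∀ p, p.Prime → p ∣ n → Tendsto (fun j => φ j p) l (𝓝 (ψ p))) :
    Tendsto (fun j => cm (φ j) n) l (𝓝 (cm ψ n)) := by
  have key : ∀ L : List ℕ, (∀ p ∈ L, Tendsto (fun j => φ j p) l (𝓝 (ψ p))) →
      Tendsto (fun j => (L.map (φ j)).prod) l (𝓝 ((L.map ψ).prod)) := by
    intro L
    induction L with
    | nil => intro _; simpa using tendsto_const_nhds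
    | cons a L ih =>
      intro h
      simp only [List.map_cons, List.prod_cons]
      exact (h a (by simp)).mul (ih (fun p hp => h p (by simp [hp])))
  exact key _ (fun p hp => h p (Nat.prime_of_mem_primeFactorsList hp)
    (Nat.dvd_of_mem_primeFactorsList hp))

end Pool.Agent.U955.TU
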