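import Mathlib
import Pool.Agent.Helper352.Kron
import Pool.Agent.U955.TU.Cm

/-! Bohr equivalence: vertical shifts of the partial sums of the Dirichlet series of a character. -/

set_option autoImplicit false

namespace Pool.Agent.U955.TU

open Filter Topology Set

/-- logarithms of distinct primes have no integral relation -/
theorem log_indep {ι : Type*} [Fintype ι] (P : ι → ℕ) (hP : ∀ i, (P i).Prime)
    (hinj : Function.Injective P) (c : ι → ℤ) (h1 : ∑ i, (c i : ℝ) * Real.log (P i) = 0) (j : ι) :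
    c j = 0 := by
  classical
  have h3 : ∑ i, (((c i).toNat : ℕ) : ℝ) * Real.log (P i) = ∑ i, (((-c i).toNat : ℕ) : ℝ) * Real.log (P i) := by
    rw [← sub_eq_zero, ← Finset.sum_sub_distrib, ← h1]
    apply Finset.sum_congr rfl
    intro i _
    rw [← sub_mul]
    congr 1
    have : ((c i).toNat : ℤ) - ((-c i).toNat : ℤ) = c i := by omega
    exact_mod_cast this
  have hpos : ∀ i, (0 : ℝ) < P i := fun i => by exact_mod_cast (hP i).pos
  have h4 : ∀ e : ι → ℕ, ∑ i, (e i : ℝ) * Real.log (P i) = Real.log ((∏ i, P i ^ e i : ℕ) : ℝ) := by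
    intro e
    push_cast
    rw [Real.log_prod (fun i _ => (pow_pos (hpos i) _).ne')]
    apply Finset.sum_congr rfl
    intro i _
    rw [Real.log_pow]
  rw [h4, h4] at h3
  have hpp : ∀ e : ι → ℕ, 0 < ∏ i, P i ^ e i := fun e =>
    Finset.prod_pos (fun i _ => pow_pos (hP i).pos _)
  have h5 : ∏ i, P i ^ (c i).toNat = ∏ i, P i ^ (-c i).toNat := by
    have := Real.log_injOn_pos (Set.mem_Ioi.2 (by exact_mod_cast hpp _)) (Set.mem_Ioi.2 (by exact_mod_cast hpp _)) h3
    exact_mod_cast this
  have h6 : ∀ e : ι → ℕ, (∏ i, P i ^ e i).factorization (P j) = e j := by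
    intro e
    rw [Nat.factorization_prod (fun i _ => (pow_pos (hP i).pos _).ne')]
    rw [Finsupp.finsetSum_apply, Finset.sum_eq_single j]
    · rw [(hP j).factorization_pow]; simp
    · intro i _ hij
      rw [(hP i).factorization_pow, Finsupp.single_apply, if_neg]
      exact fun h => hij (hinj h)
    · intro h; exact absurd (Finset.mem_univ _) h
  have h7 := congrArg (fun n => n.factorization (P j)) h5
  simp only [h6] at h7
  omega

/-- simultaneous approximation of unimodular numbers by `p ^ (-it)` -/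
theorem kron_primes (N : ℕ) (g : ℕ → ℂ) (hg : ∀ p, p.Prime → ‖g p‖ = 1) :
    ∃ t : ℕ → ℝ, ∀ p, p.Prime → p ≤ N →
      Tendsto (fun j => (p : ℂ) ^ (-(t j * Complex.I))) atTop (𝓝 (g p)) := by
  classical
  obtain ⟨F, hF⟩ : ∃ F : Finset ℕ, F = (Finset.range (N + 1)).filter Nat.Prime := ⟨_, rfl⟩
  have hF2 : ∀ q ∈ F, q.Prime := fun q hq => by
    rw [hF] at hq
    exact (Finset.mem_filter.1 hq).2
  have hι : ∀ i : F, (i : ℕ).Prime := fun i => hF2 i i.2
  set ω : F → ℝ := fun i => -Real.log (i : ℕ) / (2 * Real.pi) with hω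
  set β : F → ℝ := fun i => Complex.arg (g i) / (2 * Real.pi) with hβ
  have hpi : (2 * Real.pi) ≠ 0 := by positivity
  have key := fun ε (hε : (0:ℝ) < ε) => Pool.Agent.Helper352.kronecker ω β (by
    intro c hc
    have h1 : ∑ i : F, (c i : ℝ) * Real.log (i : ℕ) = 0 := by
      have h2 : ∑ i : F, (c i : ℝ) * ω i = -(∑ i : F, (c i : ℝ) * Real.log (i : ℕ)) / (2 * Real.pi) := by
        rw [← Finset.sum_neg_distrib, Finset.sum_div]
        refine Finset.sum_congr rfl fun i _ => ?_
        rw [hω]; ring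
      rw [h2, div_eq_zero_iff, neg_eq_zero] at hc
      exact hc.resolve_right hpi
    have h2 : ∀ i, c i = 0 := fun i => log_indep (fun i : F => (i : ℕ)) hι Subtype.val_injective c h1 i
    exact ⟨0, by simp [h2]⟩) ε hε 0
  choose t ht0 ht using fun j : ℕ => key (1 / ((j : ℝ) + 1)) (by positivity)
  refine ⟨t, ?_⟩
  intro p hp hpN
  set i : F := ⟨p, by rw [hF]; exact Finset.mem_filter.2 ⟨Finset.mem_range.2 (by omega), hp⟩⟩ with hi
  choose n hn using fun j => ht j i
  have hp0 : (p : ℂ) ≠ 0 := by exact_mod_cast hp.ne_zero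
  have hlim : Tendsto (fun j => t j * ω i - β i - n j) atTop (𝓝 0) := by
    rw [tendsto_zero_iff_abs_tendsto_zero]
    refine squeeze_zero (fun j => abs_nonneg _) (fun j => (hn j).le) ?_
    exact tendsto_one_div_add_atTop_nhds_zero_nat
  have hval : ∀ j, (p : ℂ) ^ (-(t j * Complex.I)) =
      g p * Complex.exp (((2 * Real.pi * (t j * ω i - β i - n j) : ℝ) : ℂ) * Complex.I) := by
    intro j
    have e1 : g p = Complex.exp (((2 * Real.pi * β i : ℝ) : ℂ) * Complex.I) := by
      have h2 : 2 * Real.pi * β i = Complex.arg (g p) := by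
        rw [hβ]; field_simp
        rfl
      rw [h2]
      have h3 := Complex.norm_mul_exp_arg_mul_I (g p)
      rw [hg p hp, Complex.ofReal_one, one_mul] at h3
      exact h3.symm
    rw [e1, ← Complex.exp_add, Complex.cpow_def_of_ne_zero hp0]
    have e2 : (((2 * Real.pi * β i : ℝ) : ℂ) * Complex.I) +
        (((2 * Real.pi * (t j * ω i - β i - n j) : ℝ) : ℂ) * Complex.I) =
        Complex.log p * (-(t j * Complex.I)) + ((-n j : ℤ) : ℂ) * (2 * Real.pi * Complex.I) := by
      rw [← Complex.ofReal_natCast, ← Complex.ofReal_log (by positivity)]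
      have h4 : 2 * Real.pi * (t j * ω i) = -(t j * Real.log p) := by
        rw [hω]; field_simp
        rfl
      have h5 : (((2 * Real.pi * β i : ℝ) : ℂ) * Complex.I) +
        (((2 * Real.pi * (t j * ω i - β i - n j) : ℝ) : ℂ) * Complex.I) =
        ((2 * Real.pi * (t j * ω i) : ℝ) : ℂ) * Complex.I - n j * (2 * Real.pi * Complex.I) := by
        push_cast; ring
      rw [h5, h4]
      push_cast
      ring
    rw [e2, Complex.exp_add, Complex.exp_int_mul_two_pi_mul_I, mul_one]
  have hfin : Tendsto (fun j => g p * Complex.exp (((2 * Real.pi * (t j * ω i - β i - n j) : ℝ) : ℂ) * Complex.I))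
      atTop (𝓝 (g p * Complex.exp (((2 * Real.pi * 0 : ℝ) : ℂ) * Complex.I))) := by
    have hc : Continuous (fun x : ℝ => g p * Complex.exp (((2 * Real.pi * x : ℝ) : ℂ) * Complex.I)) := by
      fun_prop
    exact (hc.tendsto 0).comp hlim
  simp only [mul_zero, Complex.ofReal_zero, zero_mul, Complex.exp_zero, mul_one] at hfin
  exact hfin.congr fun j => (hval j).symm

/-- the vertical shifts of a character approximate every completely multiplicative function which
is unimodular at the primes not dividing the modulus and vanishes at the others -/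
theorem bohr {k : ℕ} (χ : DirichletCharacter ℂ k) (f : ℕ → ℂ)
    (h0 : ∀ p, p.Prime → p ∣ k → f p = 0) (h1 : ∀ p, p.Prime → ¬ p ∣ k → ‖f p‖ = 1)
    (N : ℕ) {ε : ℝ} (hε : 0 < ε) : ∃ t : ℝ, ∀ n ∈ Finset.Icc 1 N,
      ‖χ (n : ZMod k) * (n : ℂ) ^ (-(t * Complex.I)) - cm f n‖ < ε := by
  classical
  have hχ : ∀ p : ℕ, p.Prime → ¬ p ∣ k → ‖χ (p : ZMod k)‖ = 1 := by
    intro p hp hpk
    have hu : IsUnit (p : ZMod k) := (ZMod.isUnit_iff_coprime p k).2 ((Nat.Prime.coprime_iff_not_dvd hp).2 hpk)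
    obtain ⟨u, hu⟩ := hu
    rw [← hu]
    exact DirichletCharacter.unit_norm_eq_one χ u
  have hχ0 : ∀ p : ℕ, p.Prime → p ∣ k → χ (p : ZMod k) = 0 := by
    intro p hp hpk
    apply χ.map_nonunit
    rw [ZMod.isUnit_iff_coprime]
    intro h
    exact (Nat.Prime.coprime_iff_not_dvd hp).1 h hpk
  obtain ⟨t, ht⟩ := kron_primes N (fun p => if p ∣ k then 1 else f p / χ (p : ZMod k)) (by
    intro p hp
    by_cases hpk : p ∣ k
    · simp [hpk]
    · simp only [hpk, if_false]
      rw [norm_div, h1 p hp hpk, hχ p hp hpk, div_one])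
  have hlim : ∀ n ∈ Finset.Icc 1 N, Tendsto (fun j => χ (n : ZMod k) * (n : ℂ) ^ (-(t j * Complex.I)))
      atTop (𝓝 (cm f n)) := by
    intro n hn
    rw [Finset.mem_Icc] at hn
    have hn0 : n ≠ 0 := by omega
    have e : ∀ j, χ (n : ZMod k) * (n : ℂ) ^ (-(t j * Complex.I)) =
        cm (fun p => χ (p : ZMod k) * (p : ℂ) ^ (-(t j * Complex.I))) n := by
      intro j
      rw [cm_mul_fun, cm_char χ hn0, cm_cpow _ hn0]
    simp only [e]
    apply tendsto_cm
    intro p hp hpn
    have hpN : p ≤ N := (Nat.le_of_dvd (by omega) hpn).trans hn.2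
    have h := (ht p hp hpN).const_mul (χ (p : ZMod k))
    have e2 : χ (p : ZMod k) * (if p ∣ k then 1 else f p / χ (p : ZMod k)) = f p := by
      by_cases hpk : p ∣ k
      · simp only [hpk, if_true]
        rw [hχ0 p hp hpk, h0 p hp hpk, zero_mul]
      · simp only [hpk, if_false]
        have : χ (p : ZMod k) ≠ 0 := by
          rw [← norm_pos_iff, hχ p hp hpk]; norm_num
        field_simp
    rw [e2] at h
    exact h
  have hev : ∀ᶠ j in atTop, ∀ n ∈ Finset.Icc 1 N,
      ‖χ (n : ZMod k) * (n : ℂ) ^ (-(t j * Complex.I)) - cm f n‖ < ε := by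
    rw [Filter.eventually_all_finset]
    intro n hn
    have := (Metric.tendsto_nhds.1 (hlim n hn)) ε hε
    filter_upwards [this] with j hj
    rwa [dist_eq_norm] at hj
  obtain ⟨j, hj⟩ := hev.exists
  exact ⟨t j, hj⟩

end Pool.Agent.U955.TU
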