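import Mathlib
import Pool.Agent.H307R2.LU
import Pool.Agent.U955.TU.Cm

/-! Asymptotics of the partial sums of the Dirichlet series of a completely multiplicative
function which is `1` at all but finitely many primes. -/

set_option autoImplicit false

namespace Pool.Agent.U955.TU

open Filter Topology Set

/-- partial sums of a Dirichlet series -/
noncomputable def PS (κ : ℕ → ℂ) (x : ℝ) (s : ℂ) : ℂ :=
  ∑ n ∈ Finset.Icc 1 ⌊x⌋₊, κ n * (n : ℂ) ^ (-s)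

/-- the region in which we work -/
def Reg : Set ℂ := {s | 3 / 4 ≤ s.re ∧ s.re ≤ 5 / 4 ∧ -(5 / 2) ≤ s.im ∧ s.im ≤ -(1 / 2)}

/-- the asymptotic formula for the partial sums -/
def Asy (κ : ℕ → ℂ) (Z : ℂ → ℂ) (C : ℂ) : Prop :=
  ∃ D : ℝ, 0 ≤ D ∧ ∀ s ∈ Reg, ∀ x : ℝ, 0 < x →
    ‖PS κ x s - Z s - C * (x : ℂ) ^ (1 - s) / (1 - s)‖ ≤ D * x ^ (-(1 / 2) : ℝ)

lemma isCompact_Reg : IsCompact Reg := by
  have h : Reg = (Set.Icc (3 / 4 : ℝ) (5 / 4)) ×ℂ (Set.Icc (-(5 / 2) : ℝ) (-(1 / 2))) := by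
    ext s
    simp only [Reg, Complex.mem_reProdIm, Set.mem_Icc, Set.mem_ofPred_eq]
    tauto
  rw [h]
  exact isCompact_Icc.reProdIm isCompact_Icc

lemma Reg_ne_one {s : ℂ} (hs : s ∈ Reg) : s ≠ 1 := by
  intro h
  have := hs.2.2.2
  rw [h] at this
  norm_num at this

lemma Reg_norm {s : ℂ} (hs : s ∈ Reg) : 1 / 2 ≤ ‖1 - s‖ := by
  have h1 := Complex.abs_im_le_norm (1 - s)
  have h2 : (1 - s).im = -s.im := by simp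
  rw [h2] at h1
  have := le_abs_self (-s.im)
  linarith [hs.2.2.2]

lemma small {Z : ℂ → ℂ} {C : ℂ} {M : ℝ} {s : ℂ} (hs : s ∈ Reg) (hM : ‖Z s‖ ≤ M) {x : ℝ}
    (hx : 0 < x) (hx1 : x ≤ 1) :
    ‖(0 : ℂ) - Z s - C * (x : ℂ) ^ (1 - s) / (1 - s)‖ ≤ (M + 2 * ‖C‖) * x ^ (-(1 / 2) : ℝ) := by
  have h1 : (1 : ℝ) ≤ x ^ (-(1 / 2) : ℝ) := Real.one_le_rpow_of_pos_of_le_one_of_nonpos hx hx1 (by norm_num)
  have h2 : ‖(x : ℂ) ^ (1 - s)‖ ≤ x ^ (-(1 / 2) : ℝ) := by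
    rw [Complex.norm_cpow_eq_rpow_re_of_pos hx]
    apply Real.rpow_le_rpow_of_exponent_ge hx hx1
    have := hs.2.1
    simp only [Complex.sub_re, Complex.one_re]
    linarith
  have h3 := Reg_norm hs
  have h4 : ‖C * (x : ℂ) ^ (1 - s) / (1 - s)‖ ≤ 2 * ‖C‖ * x ^ (-(1 / 2) : ℝ) := by
    rw [norm_div, norm_mul, div_le_iff₀ (by linarith)]
    have h5 : ‖C‖ * ‖(x : ℂ) ^ (1 - s)‖ ≤ ‖C‖ * x ^ (-(1 / 2) : ℝ) := by gcongr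
    have h6 : 0 ≤ ‖C‖ * x ^ (-(1 / 2) : ℝ) := by positivity
    nlinarith
  have h5 : 0 ≤ M := (norm_nonneg _).trans hM
  calc ‖(0 : ℂ) - Z s - C * (x : ℂ) ^ (1 - s) / (1 - s)‖
      ≤ ‖(0 : ℂ) - Z s‖ + ‖C * (x : ℂ) ^ (1 - s) / (1 - s)‖ := norm_sub_le _ _
    _ ≤ M * x ^ (-(1 / 2) : ℝ) + 2 * ‖C‖ * x ^ (-(1 / 2) : ℝ) := by
        gcongr
        rw [zero_sub, norm_neg]
        nlinarith
    _ = _ := by ring

lemma PS_of_lt_one (κ : ℕ → ℂ) {x : ℝ} (hx : x < 1) (s : ℂ) : PS κ x s = 0 := by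
  unfold PS
  rw [Nat.floor_eq_zero.2 hx]
  simp

/-- comparing `x ^ (1 - s)` and `⌊x⌋ ^ (1 - s)` -/
lemma floor_cmp {s : ℂ} (hs : s ∈ Reg) {x : ℝ} (hx : 1 ≤ x) :
    ‖(x : ℂ) ^ (1 - s) / (1 - s) - ((⌊x⌋₊ : ℕ) : ℂ) ^ (1 - s) / (1 - s)‖ ≤
      (⌊x⌋₊ : ℝ) ^ (-s.re) := by
  have hN : 1 ≤ ⌊x⌋₊ := Nat.one_le_floor_iff x |>.2 hx
  have hN0 : (0 : ℝ) < (⌊x⌋₊ : ℕ) := by exact_mod_cast hN
  have hle : ((⌊x⌋₊ : ℕ) : ℝ) ≤ x := Nat.floor_le (by linarith)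
  have hlt : x < (⌊x⌋₊ : ℕ) + 1 := Nat.lt_floor_add_one x
  have hs1 : (1 : ℂ) - s ≠ 0 := sub_ne_zero.2 (Reg_ne_one hs).symm
  have key := (convex_Icc ((⌊x⌋₊ : ℕ) : ℝ) x).norm_image_sub_le_of_norm_hasDerivWithin_le
    (f := fun u : ℝ => (u : ℂ) ^ (1 - s) / (1 - s)) (f' := fun u : ℝ => (u : ℂ) ^ (-s))
    (C := (⌊x⌋₊ : ℝ) ^ (-s.re)) (x := ((⌊x⌋₊ : ℕ) : ℝ)) (y := x) (by
      intro u hu
      have hu0 : 0 < u := hN0.trans_le hu.1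
      have h := (hasDerivAt_ofReal_cpow_const (x := u) (r := 1 - s) hu0.ne' hs1).div_const (1 - s)
      have h2 : HasDerivAt (fun u : ℝ => (u : ℂ) ^ (1 - s) / (1 - s)) ((u : ℂ) ^ (-s)) u := by
        have e : (1 - s - 1 : ℂ) = -s := by ring
        rw [e, mul_div_cancel_left₀ _ hs1] at h
        exact h
      exact h2.hasDerivWithinAt) (by
      intro u hu
      have hu0 : 0 < u := hN0.trans_le hu.1
      rw [Complex.norm_cpow_eq_rpow_re_of_pos hu0, Complex.neg_re]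
      exact Real.rpow_le_rpow_of_nonpos hN0 hu.1 (by linarith [hs.1])) ⟨le_rfl, hle⟩ ⟨hle, le_rfl⟩
  have h3 : ‖x - (⌊x⌋₊ : ℕ)‖ ≤ 1 := by
    rw [Real.norm_of_nonneg (by linarith)]
    linarith
  have h4 : (0 : ℝ) ≤ (⌊x⌋₊ : ℝ) ^ (-s.re) := by positivity
  calc _ ≤ _ := key
    _ ≤ (⌊x⌋₊ : ℝ) ^ (-s.re) * 1 := by gcongr
    _ = _ := mul_one _

lemma floor_rpow {s : ℂ} (hs : s ∈ Reg) {x : ℝ} (hx : 1 ≤ x) :
    (⌊x⌋₊ : ℝ) ^ (-s.re) ≤ 4 * x ^ (-(1 / 2) : ℝ) := by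
  have hN : 1 ≤ ⌊x⌋₊ := Nat.one_le_floor_iff x |>.2 hx
  have hN1 : (1 : ℝ) ≤ (⌊x⌋₊ : ℕ) := by exact_mod_cast hN
  have hlt : x < (⌊x⌋₊ : ℕ) + 1 := Nat.lt_floor_add_one x
  have h1 : x / 2 ≤ (⌊x⌋₊ : ℕ) := by linarith
  have hx0 : (0 : ℝ) < x := by linarith
  calc (⌊x⌋₊ : ℝ) ^ (-s.re) ≤ (x / 2) ^ (-s.re) :=
        Real.rpow_le_rpow_of_nonpos (by positivity) h1 (by linarith [hs.1])
    _ = x ^ (-s.re) * 2 ^ (s.re) := by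
        rw [Real.div_rpow hx0.le (by norm_num), Real.rpow_neg (by norm_num : (0 : ℝ) ≤ 2)]
        field_simp
    _ ≤ x ^ (-(1 / 2) : ℝ) * 2 ^ (2 : ℝ) := by
        have g1 : x ^ (-s.re) ≤ x ^ (-(1 / 2) : ℝ) :=
          Real.rpow_le_rpow_of_exponent_le hx (by linarith [hs.1])
        have g2 : (2 : ℝ) ^ (s.re) ≤ 2 ^ (2 : ℝ) :=
          Real.rpow_le_rpow_of_exponent_le (by norm_num) (by linarith [hs.2.1])
        gcongr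
    _ = _ := by norm_num; ring

/-- the formula for the zeta function -/
theorem asy_zeta : Asy (fun _ => 1) riemannZeta 1 := by
  obtain ⟨M, hM⟩ := isCompact_Reg.exists_bound_of_continuousOn (f := riemannZeta)
    (fun s hs => (differentiableAt_riemannZeta (Reg_ne_one hs)).continuousAt.continuousWithinAt)
  have hM0 : 0 ≤ M := by
    have h : (1 - Complex.I) ∈ Reg := by
      simp only [Reg, Set.mem_ofPred_eq, Complex.sub_re, Complex.one_re, Complex.I_re, Complex.sub_im,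
        Complex.one_im, Complex.I_im]
      norm_num
    exact (norm_nonneg _).trans (hM _ h)
  refine ⟨M + 2 + 24, by linarith, ?_⟩
  intro s hs x hx
  rcases lt_or_ge x 1 with hx1 | hx1
  · rw [PS_of_lt_one _ hx1]
    have h := small (C := 1) hs (hM s hs) hx hx1.le
    have h0 : 0 ≤ x ^ (-(1 / 2) : ℝ) := by positivity
    rw [norm_one] at h
    nlinarith
  have hN : 1 ≤ ⌊x⌋₊ := Nat.one_le_floor_iff x |>.2 hx1
  have hσ : 0 < s.re := by linarith [hs.1]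
  have hz := Pool.Agent.H307R2.zeta_eq hN hσ (Reg_ne_one hs)
  have hs1 : (1 : ℂ) - s ≠ 0 := sub_ne_zero.2 (Reg_ne_one hs).symm
  have hs2 : s - 1 ≠ 0 := sub_ne_zero.2 (Reg_ne_one hs)
  have e1 : PS (fun _ => 1) x s - riemannZeta s - 1 * (x : ℂ) ^ (1 - s) / (1 - s) =
      -(s * Pool.Agent.H307R2.TM ⌊x⌋₊ Pool.Agent.H307R2.Ez s) -
      ((x : ℂ) ^ (1 - s) / (1 - s) - ((⌊x⌋₊ : ℕ) : ℂ) ^ (1 - s) / (1 - s)) := by
    rw [hz]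
    unfold PS
    simp only [one_mul]
    have : ((⌊x⌋₊ : ℕ) : ℂ) ^ (1 - s) / (s - 1) = -(((⌊x⌋₊ : ℕ) : ℂ) ^ (1 - s) / (1 - s)) := by
      rw [← neg_sub 1 s, div_neg]
    rw [this]
    ring
  rw [e1]
  have h2 := Pool.Agent.H307R2.TM_norm_le hN Pool.Agent.H307R2.Ez_norm_le hσ
  have h3 := floor_cmp hs hx1
  have h4 := floor_rpow hs hx1
  have h5 : ‖s‖ ≤ 15 / 4 := by
    have := Complex.norm_le_abs_re_add_abs_im s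
    have h6 : |s.re| ≤ 5 / 4 := abs_le.2 ⟨by linarith [hs.1], hs.2.1⟩
    have h7 : |s.im| ≤ 5 / 2 := abs_le.2 ⟨hs.2.2.1, by linarith [hs.2.2.2]⟩
    linarith
  have h6 : (0 : ℝ) ≤ (⌊x⌋₊ : ℝ) ^ (-s.re) := by positivity
  have h7 : ‖Pool.Agent.H307R2.TM ⌊x⌋₊ Pool.Agent.H307R2.Ez s‖ ≤ (4 / 3) * (⌊x⌋₊ : ℝ) ^ (-s.re) := by
    refine h2.trans ?_
    rw [one_mul, div_le_iff₀ hσ]
    nlinarith [hs.1]
  have h8 : ‖s * Pool.Agent.H307R2.TM ⌊x⌋₊ Pool.Agent.H307R2.Ez s‖ ≤ 5 * (⌊x⌋₊ : ℝ) ^ (-s.re) := by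
    rw [norm_mul]
    calc _ ≤ (15 / 4) * ((4 / 3) * (⌊x⌋₊ : ℝ) ^ (-s.re)) := by gcongr
      _ = _ := by ring
  have h9 : 0 ≤ x ^ (-(1 / 2) : ℝ) := by positivity
  calc _ ≤ ‖-(s * Pool.Agent.H307R2.TM ⌊x⌋₊ Pool.Agent.H307R2.Ez s)‖ + _ := norm_sub_le _ _
    _ ≤ 5 * (⌊x⌋₊ : ℝ) ^ (-s.re) + (⌊x⌋₊ : ℝ) ^ (-s.re) := by
        rw [norm_neg]
        gcongr
    _ ≤ 24 * x ^ (-(1 / 2) : ℝ) := by linarith
    _ ≤ _ := by nlinarith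

end Pool.Agent.U955.TU
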