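import Mathlib
import Pool.Agent.U955.TU.Asy

/-! Changing the value of the completely multiplicative function at one prime. -/

set_option autoImplicit false

namespace Pool.Agent.U955.TU

open Filter Topology Set

/-- splitting off the multiples of a prime -/
lemma split (β : ℕ → ℂ) {p : ℕ} (hp : p.Prime) (x : ℝ) (s : ℂ) :
    PS (cm β) x s - β p * (p : ℂ) ^ (-s) * PS (cm β) (x / p) s =
      ∑ n ∈ (Finset.Icc 1 ⌊x⌋₊).filter (fun n => ¬ p ∣ n), cm β n * (n : ℂ) ^ (-s) := by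
  have h1 : PS (cm β) x s = ∑ n ∈ (Finset.Icc 1 ⌊x⌋₊).filter (fun n => p ∣ n), cm β n * (n : ℂ) ^ (-s) +
      ∑ n ∈ (Finset.Icc 1 ⌊x⌋₊).filter (fun n => ¬ p ∣ n), cm β n * (n : ℂ) ^ (-s) := by
    unfold PS
    rw [Finset.sum_filter_add_sum_filter_not]
  have h2 : ∑ n ∈ (Finset.Icc 1 ⌊x⌋₊).filter (fun n => p ∣ n), cm β n * (n : ℂ) ^ (-s) =
      β p * (p : ℂ) ^ (-s) * PS (cm β) (x / p) s := by
    unfold PS
    rw [Finset.mul_sum]
    symm
    refine Finset.sum_bij' (fun m _ => p * m) (fun n _ => n / p) ?_ ?_ ?_ ?_ ?_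
    · intro m hm
      rw [Finset.mem_Icc, Nat.floor_div_natCast] at hm
      rw [Finset.mem_filter, Finset.mem_Icc]
      refine ⟨⟨Nat.one_le_iff_ne_zero.2 (mul_ne_zero hp.ne_zero (by omega)), ?_⟩, Dvd.intro _ rfl⟩
      rw [mul_comm]
      exact (Nat.le_div_iff_mul_le hp.pos).1 hm.2
    · intro n hn
      rw [Finset.mem_filter, Finset.mem_Icc] at hn
      rw [Finset.mem_Icc, Nat.floor_div_natCast]
      obtain ⟨⟨h3, h4⟩, h5⟩ := hn
      exact ⟨Nat.div_pos (Nat.le_of_dvd h3 h5) hp.pos, Nat.div_le_div_right h4⟩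
    · intro m _
      exact Nat.mul_div_cancel_left m hp.pos
    · intro n hn
      rw [Finset.mem_filter] at hn
      exact Nat.mul_div_cancel' hn.2
    · intro m hm
      rw [Finset.mem_Icc] at hm
      rw [cm_mul β hp.ne_zero (by omega), cm_prime β hp]
      push_cast
      rw [Complex.natCast_mul_natCast_cpow]
      ring
  rw [h1, h2]
  ring

lemma scale {x : ℝ} (hx : 0 < x) {p : ℕ} (hp : 0 < p) (s : ℂ) :
    (p : ℂ) ^ (-s) * (((x / p : ℝ)) : ℂ) ^ (1 - s) = (x : ℂ) ^ (1 - s) / p := by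
  have hp0 : (p : ℂ) ≠ 0 := by exact_mod_cast hp.ne'
  have hpr : (0 : ℝ) < p := by exact_mod_cast hp
  have h1 : (x : ℂ) ^ (1 - s) = (((x / p : ℝ)) : ℂ) ^ (1 - s) * (p : ℂ) ^ (1 - s) := by
    have h := Complex.mul_cpow_ofReal_nonneg (a := x / p) (b := (p : ℝ)) (by positivity) (by positivity) (1 - s)
    have h2 : (((x / p : ℝ)) : ℂ) * (((p : ℝ)) : ℂ) = (x : ℂ) := by
      rw [← Complex.ofReal_mul]
      congr 1
      field_simp
    rw [h2] at h
    rw [h]
    simp
  rw [h1, Complex.cpow_sub _ _ hp0, Complex.cpow_one, Complex.cpow_neg]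
  have h3 : (p : ℂ) ^ s ≠ 0 := by
    rw [Complex.cpow_ne_zero_iff]
    exact Or.inl hp0
  field_simp

lemma norm_cpow_neg_le {s : ℂ} (hs : s ∈ Reg) {p : ℕ} (hp : 0 < p) :
    ‖(p : ℂ) ^ (-s)‖ ≤ (p : ℝ) ^ (-(3 / 4) : ℝ) := by
  rw [Complex.norm_natCast_cpow_of_pos hp, Complex.neg_re]
  exact Real.rpow_le_rpow_of_exponent_le (by exact_mod_cast hp) (by linarith [hs.1])

/-- `p ^ (-3/4) < 1`, quantitatively -/
lemma rpow34_lt {p : ℕ} (hp : 2 ≤ p) : (p : ℝ) ^ (-(3 / 4) : ℝ) < 1 :=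
  Real.rpow_lt_one_of_one_lt_of_neg (by exact_mod_cast hp) (by norm_num)

lemma denom_ne {s : ℂ} (hs : s ∈ Reg) {p : ℕ} (hp : 2 ≤ p) {b : ℂ} (hb : ‖b‖ ≤ 1) :
    1 - b * (p : ℂ) ^ (-s) ≠ 0 := by
  intro h
  have h1 : b * (p : ℂ) ^ (-s) = 1 := (sub_eq_zero.1 h).symm
  have h2 := norm_cpow_neg_le hs (p := p) (by omega)
  have h3 := rpow34_lt hp
  have h4 : ‖b * (p : ℂ) ^ (-s)‖ < 1 := by
    rw [norm_mul]
    nlinarith [norm_nonneg b, norm_nonneg ((p : ℂ) ^ (-s))]
  rw [h1, norm_one] at h4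
  exact lt_irrefl _ h4

lemma denom_ne' {p : ℕ} (hp : 2 ≤ p) {b : ℂ} (hb : ‖b‖ ≤ 1) : 1 - b / (p : ℂ) ≠ 0 := by
  intro h
  have h1 : b / (p : ℂ) = 1 := (sub_eq_zero.1 h).symm
  have hp2 : (2 : ℝ) ≤ p := by exact_mod_cast hp
  have h4 : ‖b / (p : ℂ)‖ < 1 := by
    rw [norm_div, Complex.norm_natCast, div_lt_one (by linarith)]
    linarith
  rw [h1, norm_one] at h4
  exact lt_irrefl _ h4

/-- one step -/
theorem asy_step {β : ℕ → ℂ} {Z : ℂ → ℂ} {C : ℂ} (h : Asy (cm β) Z C) (hZ : ContinuousOn Z Reg)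
    {p : ℕ} (hp : p.Prime) (hβ : β p = 1) {b : ℂ} (hb : ‖b‖ ≤ 1) :
    Asy (cm (Function.update β p b))
      (fun s => Z s * (1 - (p : ℂ) ^ (-s)) / (1 - b * (p : ℂ) ^ (-s)))
      (C * (1 - 1 / p) / (1 - b / p)) ∧
    ContinuousOn (fun s => Z s * (1 - (p : ℂ) ^ (-s)) / (1 - b * (p : ℂ) ^ (-s))) Reg := by
  have hp0 : (p : ℂ) ≠ 0 := by exact_mod_cast hp.ne_zero
  have hpr : (0 : ℝ) < p := by exact_mod_cast hp.pos
  have hpow : Continuous (fun s : ℂ => (p : ℂ) ^ (-s)) := by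
    exact (continuous_neg).const_cpow (Or.inl hp0)
  have hcont : ContinuousOn (fun s => Z s * (1 - (p : ℂ) ^ (-s)) / (1 - b * (p : ℂ) ^ (-s))) Reg := by
    refine ContinuousOn.div (hZ.mul (continuous_const.sub hpow).continuousOn)
      (continuous_const.sub (continuous_const.mul hpow)).continuousOn ?_
    intro s hs
    exact denom_ne hs hp.two_le hb
  refine ⟨?_, hcont⟩
  set Z' : ℂ → ℂ := fun s => Z s * (1 - (p : ℂ) ^ (-s)) / (1 - b * (p : ℂ) ^ (-s)) with hZ'
  set C' : ℂ := C * (1 - 1 / p) / (1 - b / p) with hC'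
  obtain ⟨M, hM⟩ := isCompact_Reg.exists_bound_of_continuousOn hcont
  obtain ⟨D, hD0, hD⟩ := h
  set q : ℝ := (p : ℝ) ^ (-(1 / 4) : ℝ) with hq
  have hq1 : q < 1 := Real.rpow_lt_one_of_one_lt_of_neg (by exact_mod_cast hp.one_lt) (by norm_num)
  have hq0 : 0 < q := by positivity
  -- the new constant
  set D' : ℝ := max (max M 0 + 2 * ‖C'‖) (2 * D / (1 - q)) with hD'
  have hD'1 : max M 0 + 2 * ‖C'‖ ≤ D' := le_max_left _ _
  have hD'2 : 2 * D ≤ D' * (1 - q) := by
    have := le_max_right (max M 0 + 2 * ‖C'‖) (2 * D / (1 - q))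
    rw [← hD'] at this
    rwa [div_le_iff₀ (by linarith)] at this
  have hD'0 : 0 ≤ D' := le_trans (by positivity) hD'1
  refine ⟨D', hD'0, ?_⟩
  intro s hs
  have hs1 : (1 : ℂ) - s ≠ 0 := sub_ne_zero.2 (Reg_ne_one hs).symm
  have hden := denom_ne hs hp.two_le hb
  have hden' := denom_ne' hp.two_le hb
  have hps := norm_cpow_neg_le hs (p := p) hp.pos
  -- induction on the size of `x`
  have key : ∀ k : ℕ, ∀ x : ℝ, 0 < x → x < (p : ℝ) ^ k →
      ‖PS (cm (Function.update β p b)) x s - Z' s - C' * (x : ℂ) ^ (1 - s) / (1 - s)‖ ≤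
        D' * x ^ (-(1 / 2) : ℝ) := by
    intro k
    induction k with
    | zero =>
      intro x hx hx1
      rw [pow_zero] at hx1
      rw [PS_of_lt_one _ hx1]
      have h1 := small (C := C') (Z := Z') (M := max M 0) hs ((hM s hs).trans (le_max_left _ _)) hx hx1.le
      have h2 : 0 ≤ x ^ (-(1 / 2) : ℝ) := by positivity
      refine h1.trans ?_
      gcongr
    | succ k ih =>
      intro x hx hxk
      have hxp : 0 < x / p := by positivity
      have h1 := ih (x / p) hxp (by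
        rw [div_lt_iff₀ hpr, ← pow_succ]
        exact hxk)
      have h2 := hD s hs x hx
      have h3 := hD s hs (x / p) hxp
      -- the identity
      have e1 := split β hp x s
      have e2 := split (Function.update β p b) hp x s
      have e3 : ∑ n ∈ (Finset.Icc 1 ⌊x⌋₊).filter (fun n => ¬ p ∣ n),
          cm (Function.update β p b) n * (n : ℂ) ^ (-s) =
          ∑ n ∈ (Finset.Icc 1 ⌊x⌋₊).filter (fun n => ¬ p ∣ n), cm β n * (n : ℂ) ^ (-s) := by
        refine Finset.sum_congr rfl fun n hn => ?_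
        rw [Finset.mem_filter] at hn
        congr 1
        refine cm_congr fun r _ hrn => ?_
        rw [Function.update_of_ne]
        intro h
        rw [h] at hrn
        exact hn.2 hrn
      rw [Function.update_self] at e2
      rw [e3, ← e1, hβ, one_mul] at e2
      have e4 : PS (cm (Function.update β p b)) x s =
          b * (p : ℂ) ^ (-s) * PS (cm (Function.update β p b)) (x / p) s +
          (PS (cm β) x s - (p : ℂ) ^ (-s) * PS (cm β) (x / p) s) := by
        rw [← e2]; ring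
      have e5 : Z' s = b * (p : ℂ) ^ (-s) * Z' s + (Z s - (p : ℂ) ^ (-s) * Z s) := by
        have h5 : Z' s * (1 - b * (p : ℂ) ^ (-s)) = Z s * (1 - (p : ℂ) ^ (-s)) :=
          div_mul_cancel₀ _ hden
        linear_combination h5
      have sc := scale hx hp.pos s
      have e6 : C' = C' * (b / p) + (C - C / p) := by
        have h5 : C' * (1 - b / p) = C * (1 - 1 / p) := div_mul_cancel₀ _ hden'
        linear_combination h5
      have e7 : C' * (x : ℂ) ^ (1 - s) / (1 - s) =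
          b * (p : ℂ) ^ (-s) * (C' * (((x / p : ℝ)) : ℂ) ^ (1 - s) / (1 - s)) +
          (C * (x : ℂ) ^ (1 - s) / (1 - s) -
            (p : ℂ) ^ (-s) * (C * (((x / p : ℝ)) : ℂ) ^ (1 - s) / (1 - s))) := by
        have f1 : b * (p : ℂ) ^ (-s) * (C' * (((x / p : ℝ)) : ℂ) ^ (1 - s) / (1 - s)) =
            C' * (b / p) * (x : ℂ) ^ (1 - s) / (1 - s) := by
          calc _ = b * C' * ((p : ℂ) ^ (-s) * (((x / p : ℝ)) : ℂ) ^ (1 - s)) / (1 - s) := by ring
            _ = _ := by rw [sc]; ring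
        have f2 : (p : ℂ) ^ (-s) * (C * (((x / p : ℝ)) : ℂ) ^ (1 - s) / (1 - s)) =
            (C / p) * (x : ℂ) ^ (1 - s) / (1 - s) := by
          calc _ = C * ((p : ℂ) ^ (-s) * (((x / p : ℝ)) : ℂ) ^ (1 - s)) / (1 - s) := by ring
            _ = _ := by rw [sc]; ring
        rw [f1, f2]
        nth_rewrite 1 [e6]
        ring
      have e8 : PS (cm (Function.update β p b)) x s - Z' s - C' * (x : ℂ) ^ (1 - s) / (1 - s) =
          b * (p : ℂ) ^ (-s) * (PS (cm (Function.update β p b)) (x / p) s - Z' s -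
            C' * (((x / p : ℝ)) : ℂ) ^ (1 - s) / (1 - s)) +
          ((PS (cm β) x s - Z s - C * (x : ℂ) ^ (1 - s) / (1 - s)) -
            (p : ℂ) ^ (-s) * (PS (cm β) (x / p) s - Z s -
              C * (((x / p : ℝ)) : ℂ) ^ (1 - s) / (1 - s))) := by
        linear_combination e4 - e5 - e7
      rw [e8]
      have hxx : (x / p) ^ (-(1 / 2) : ℝ) = x ^ (-(1 / 2) : ℝ) * (p : ℝ) ^ ((1 / 2) : ℝ) := by
        rw [Real.div_rpow hx.le hpr.le, Real.rpow_neg hpr.le]
        field_simp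
      have hpp : (p : ℝ) ^ (-(3 / 4) : ℝ) * (p : ℝ) ^ ((1 / 2) : ℝ) = q := by
        rw [hq, ← Real.rpow_add hpr]
        norm_num
      have hX : 0 < x ^ (-(1 / 2) : ℝ) := by positivity
      have n1 : ‖b * (p : ℂ) ^ (-s) * (PS (cm (Function.update β p b)) (x / p) s - Z' s -
            C' * (((x / p : ℝ)) : ℂ) ^ (1 - s) / (1 - s))‖ ≤ D' * q * x ^ (-(1 / 2) : ℝ) := by
        rw [norm_mul, norm_mul]
        calc _ ≤ 1 * (p : ℝ) ^ (-(3 / 4) : ℝ) * (D' * (x / p) ^ (-(1 / 2) : ℝ)) := by gcongr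
          _ = D' * ((p : ℝ) ^ (-(3 / 4) : ℝ) * (p : ℝ) ^ ((1 / 2) : ℝ)) * x ^ (-(1 / 2) : ℝ) := by
              rw [hxx]; ring
          _ = _ := by rw [hpp]
      have n2 : ‖(p : ℂ) ^ (-s) * (PS (cm β) (x / p) s - Z s -
              C * (((x / p : ℝ)) : ℂ) ^ (1 - s) / (1 - s))‖ ≤ D * q * x ^ (-(1 / 2) : ℝ) := by
        rw [norm_mul]
        calc _ ≤ (p : ℝ) ^ (-(3 / 4) : ℝ) * (D * (x / p) ^ (-(1 / 2) : ℝ)) := by gcongr
          _ = D * ((p : ℝ) ^ (-(3 / 4) : ℝ) * (p : ℝ) ^ ((1 / 2) : ℝ)) * x ^ (-(1 / 2) : ℝ) := by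
              rw [hxx]; ring
          _ = _ := by rw [hpp]
      calc _ ≤ D' * q * x ^ (-(1 / 2) : ℝ) + (D * x ^ (-(1 / 2) : ℝ) + D * q * x ^ (-(1 / 2) : ℝ)) :=
            (norm_add_le _ _).trans (add_le_add n1 ((norm_sub_le _ _).trans (add_le_add h2 n2)))
        _ = (D' * q + D + D * q) * x ^ (-(1 / 2) : ℝ) := by ring
        _ ≤ D' * x ^ (-(1 / 2) : ℝ) := by
            gcongr
            nlinarith
  intro x hx
  obtain ⟨k, hk⟩ := pow_unbounded_of_one_lt x (show (1 : ℝ) < p by exact_mod_cast hp.one_lt)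
  exact key k x hx hk

/-- the values at the primes -/
noncomputable def bt (S : Finset ℕ) (b : ℕ → ℂ) (p : ℕ) : ℂ := if p ∈ S then b p else 1

/-- the function `Z` -/
noncomputable def ZS (S : Finset ℕ) (b : ℕ → ℂ) (s : ℂ) : ℂ :=
  riemannZeta s * ∏ p ∈ S, ((1 - (p : ℂ) ^ (-s)) / (1 - b p * (p : ℂ) ^ (-s)))

/-- the constant `C` -/
noncomputable def CS (S : Finset ℕ) (b : ℕ → ℂ) : ℂ :=
  ∏ p ∈ S, ((1 - 1 / (p : ℂ)) / (1 - b p / p))

theorem asy_all (b : ℕ → ℂ) (S : Finset ℕ) (hS : ∀ p ∈ S, p.Prime) (hb : ∀ p ∈ S, ‖b p‖ ≤ 1) :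
    Asy (cm (bt S b)) (ZS S b) (CS S b) ∧ ContinuousOn (ZS S b) Reg := by
  classical
  induction S using Finset.induction_on with
  | empty =>
    constructor
    · have h := asy_zeta
      have e1 : (fun n => cm (bt ∅ b) n) = fun _ => 1 := by
        funext n
        unfold cm
        have : (n.primeFactorsList.map (bt ∅ b)) = n.primeFactorsList.map (fun _ => (1 : ℂ)) := by
          refine List.map_congr_left fun p _ => by simp [bt]
        rw [this]
        simp
      have e2 : ZS ∅ b = riemannZeta := by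
        funext s
        simp [ZS]
      have e3 : CS ∅ b = 1 := by simp [CS]
      rw [e2, e3]
      have e4 : cm (bt ∅ b) = fun _ => 1 := e1
      rw [e4]
      exact h
    · have e2 : ZS ∅ b = riemannZeta := by
        funext s
        simp [ZS]
      rw [e2]
      exact fun s hs => (differentiableAt_riemannZeta (Reg_ne_one hs)).continuousAt.continuousWithinAt
  | insert p S hpS ih =>
    obtain ⟨h1, h2⟩ := ih (fun r hr => hS r (Finset.mem_insert_of_mem hr))
      (fun r hr => hb r (Finset.mem_insert_of_mem hr))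
    have hp := hS p (Finset.mem_insert_self p S)
    obtain ⟨h3, h4⟩ := asy_step h1 h2 hp (by simp [bt, hpS]) (hb p (Finset.mem_insert_self p S))
    have e1 : Function.update (bt S b) p (b p) = bt (insert p S) b := by
      funext r
      by_cases hr : r = p
      · subst hr
        simp [bt]
      · rw [Function.update_of_ne hr]
        simp [bt, hr]
    have e2 : (fun s => ZS S b s * (1 - (p : ℂ) ^ (-s)) / (1 - b p * (p : ℂ) ^ (-s))) =
        ZS (insert p S) b := by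
      funext s
      simp only [ZS]
      rw [Finset.prod_insert hpS]
      ring
    have e3 : CS S b * (1 - 1 / (p : ℂ)) / (1 - b p / p) = CS (insert p S) b := by
      simp only [CS]
      rw [Finset.prod_insert hpS]
      ring
    rw [e1, e2, e3] at h3
    rw [e2] at h4
    exact ⟨h3, h4⟩

end Pool.Agent.U955.TU
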