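import Mathlib
import Pool.Agent.U955.TU.Step

/-! The choice of the frequency and of the values at the small primes. -/

set_option autoImplicit false

namespace Pool.Agent.U955.TU

open Filter Topology Set

/-- the elementary inequality for one prime -/
lemma real_ineq {x δ : ℝ} (hx : 0 < x) (hx2 : x ≤ 1 / 2) (hδ : 0 ≤ δ) (hδ2 : δ ≤ 2) :
    ((1 - x) ^ 2 + x * δ ^ 2) * (1 - x * δ + x ^ 2) ≤
      Real.exp (-(1 / 2) * x * (1 - (1 - δ ^ 2 / 2) ^ 2) + 34 * x ^ 2) *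
        ((1 + x * δ + x ^ 2) * (1 - x) ^ 2) := by
  have hx1 : 0 < (1 - x) ^ 2 := by nlinarith
  have h1 : (1 - x) ^ 2 + x * δ ^ 2 ≤ (1 - x) ^ 2 * Real.exp (x * δ ^ 2 + 24 * x ^ 2) := by
    have h2 := Real.add_one_le_exp (x * δ ^ 2 + 24 * x ^ 2)
    have h3 : x * δ ^ 2 ≤ (1 - x) ^ 2 * (x * δ ^ 2 + 24 * x ^ 2) := by
      have h4 : (2 - x) ≤ 6 * (1 - x) ^ 2 := by nlinarith [mul_nonneg (sub_nonneg.2 hx2) (show (0:ℝ) ≤ 4 - 3 * x by linarith)]
      have h5 : δ ^ 2 ≤ 4 := by nlinarith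
      have h6 : δ ^ 2 * (2 - x) ≤ 4 * (6 * (1 - x) ^ 2) := by
        have : 0 ≤ 2 - x := by linarith
        nlinarith [sq_nonneg δ]
      have h7 : x ^ 2 * (δ ^ 2 * (2 - x)) ≤ x ^ 2 * (4 * (6 * (1 - x) ^ 2)) := by gcongr
      nlinarith
    calc (1 - x) ^ 2 + x * δ ^ 2 ≤ (1 - x) ^ 2 * (x * δ ^ 2 + 24 * x ^ 2 + 1) := by linarith
      _ ≤ _ := by gcongr
  have hu : 0 < 1 + x * δ + x ^ 2 := by positivity
  have h2 : 1 - x * δ + x ^ 2 ≤ (1 + x * δ + x ^ 2) * Real.exp (-(2 * x * δ) + 10 * x ^ 2) := by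
    have h2 := Real.add_one_le_exp (-(2 * x * δ) + 10 * x ^ 2)
    have h3 : -(2 * x * δ) ≤ (1 + x * δ + x ^ 2) * (-(2 * x * δ) + 10 * x ^ 2) := by
      have h4 : 0 ≤ x * δ := by positivity
      have h5 : δ ^ 2 ≤ 4 := by nlinarith
      have h6 : x ^ 2 * δ ^ 2 ≤ x ^ 2 * 4 := by gcongr
      have h7 : x ^ 3 * δ ≤ x ^ 2 := by
        have : x * δ ≤ 1 := by nlinarith
        nlinarith [sq_nonneg x]
      have h8 : 0 ≤ x ^ 3 * δ := by positivity
      have h9 : 0 ≤ x ^ 4 := by positivity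
      nlinarith
    calc 1 - x * δ + x ^ 2 ≤ (1 + x * δ + x ^ 2) * (-(2 * x * δ) + 10 * x ^ 2 + 1) := by linarith
      _ ≤ _ := by gcongr
  have h3 : 0 ≤ 1 - x * δ + x ^ 2 := by nlinarith [sq_nonneg (1 - x)]
  calc ((1 - x) ^ 2 + x * δ ^ 2) * (1 - x * δ + x ^ 2)
      ≤ ((1 - x) ^ 2 * Real.exp (x * δ ^ 2 + 24 * x ^ 2)) *
        ((1 + x * δ + x ^ 2) * Real.exp (-(2 * x * δ) + 10 * x ^ 2)) := by gcongr
    _ = Real.exp ((x * δ ^ 2 + 24 * x ^ 2) + (-(2 * x * δ) + 10 * x ^ 2)) *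
        ((1 + x * δ + x ^ 2) * (1 - x) ^ 2) := by
        rw [Real.exp_add (x * δ ^ 2 + 24 * x ^ 2)]; ring
    _ ≤ _ := by
        refine mul_le_mul_of_nonneg_right (Real.exp_le_exp.2 ?_) (by positivity)
        have h4 : 0 ≤ δ * (2 - δ) * (1 - δ * (2 + δ) / 8) := by
          have : δ * (2 + δ) ≤ 8 := by nlinarith
          have h5 : 0 ≤ 2 - δ := by linarith
          have h6 : 0 ≤ 1 - δ * (2 + δ) / 8 := by linarith
          positivity
        have h5 : 0 ≤ x * (δ * (2 - δ) * (1 - δ * (2 + δ) / 8)) := by positivity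
        nlinarith

lemma norm_one_sub_sq (z : ℂ) : ‖1 - z‖ ^ 2 = 1 - 2 * z.re + ‖z‖ ^ 2 := by
  rw [← Complex.normSq_eq_norm_sq, ← Complex.normSq_eq_norm_sq, Complex.normSq_apply,
    Complex.normSq_apply]
  simp
  ring

/-- the optimal value at a prime -/
lemma exists_b {c : ℂ} (hc : ‖c‖ = 1) : ∃ b : ℂ, ‖b‖ = 1 ∧ b.re = ‖c - 1‖ / 2 ∧
    (b * c).re = -(‖c - 1‖ / 2) ∨ (‖b‖ = 1 ∧ c = 1) := by
  by_cases h : c = 1
  · exact ⟨1, Or.inr ⟨by simp, h⟩⟩
  have hne : c - 1 ≠ 0 := sub_ne_zero.2 h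
  have hpos : 0 < ‖c - 1‖ := norm_pos_iff.2 hne
  have hsq : ‖c - 1‖ ^ 2 = 2 - 2 * c.re := by
    rw [norm_sub_rev, norm_one_sub_sq, hc]; ring
  refine ⟨-(starRingEnd ℂ (c - 1)) / ‖c - 1‖, Or.inl ⟨?_, ?_, ?_⟩⟩
  · rw [norm_div, norm_neg, Complex.norm_conj, Complex.norm_real, norm_norm, div_self hpos.ne']
  · rw [Complex.div_ofReal_re]
    simp only [Complex.neg_re, map_sub, map_one, Complex.sub_re, Complex.conj_re, Complex.one_re]
    field_simp
    rw [hsq]; ring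
  · have e1 : -(starRingEnd ℂ (c - 1)) / ‖c - 1‖ * c = (c - 1) / ‖c - 1‖ := by
      have h1 : starRingEnd ℂ c * c = 1 := by
        rw [mul_comm, Complex.mul_conj, Complex.normSq_eq_norm_sq, hc]; simp
      have h2 : -(starRingEnd ℂ (c - 1)) * c = c - 1 := by
        rw [map_sub, map_one]
        linear_combination -h1
      calc _ = (-(starRingEnd ℂ (c - 1)) * c) / ‖c - 1‖ := by ring
        _ = _ := by rw [h2]
    rw [e1, Complex.div_ofReal_re]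
    simp only [Complex.sub_re, Complex.one_re]
    field_simp
    rw [hsq]; ring

/-- the factor of a prime not dividing the modulus -/
lemma ratio {c : ℂ} (hc : ‖c‖ = 1) {x : ℝ} (hx : 0 < x) (hx2 : x ≤ 1 / 2) : ∃ b : ℂ, ‖b‖ = 1 ∧
    (‖1 - c * x‖ * ‖1 - b * x‖) ^ 2 ≤
      Real.exp (-(1 / 2) * x * (1 - c.re ^ 2) + 34 * x ^ 2) * (‖1 - b * c * x‖ * (1 - x)) ^ 2 := by
  obtain ⟨b, hb | hb⟩ := exists_b hc
  · obtain ⟨hb1, hb2, hb3⟩ := hb
    refine ⟨b, hb1, ?_⟩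
    have hsq : ‖c - 1‖ ^ 2 = 2 - 2 * c.re := by
      rw [norm_sub_rev, norm_one_sub_sq, hc]; ring
    have hδ2 : ‖c - 1‖ ≤ 2 := by
      calc ‖c - 1‖ ≤ ‖c‖ + ‖(1 : ℂ)‖ := norm_sub_le _ _
        _ = 2 := by rw [hc, norm_one]; norm_num
    have h := real_ineq hx hx2 (norm_nonneg (c - 1)) hδ2
    have e1 : ‖1 - c * x‖ ^ 2 = (1 - x) ^ 2 + x * ‖c - 1‖ ^ 2 := by
      rw [norm_one_sub_sq, norm_mul, hc, Complex.re_mul_ofReal, Complex.norm_real, Real.norm_of_nonneg hx.le,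
        hsq]
      ring
    have e2 : ‖1 - b * x‖ ^ 2 = 1 - x * ‖c - 1‖ + x ^ 2 := by
      rw [norm_one_sub_sq, norm_mul, hb1, Complex.re_mul_ofReal, Complex.norm_real, Real.norm_of_nonneg hx.le,
        hb2]
      ring
    have e3 : ‖1 - b * c * x‖ ^ 2 = 1 + x * ‖c - 1‖ + x ^ 2 := by
      rw [norm_one_sub_sq, norm_mul, norm_mul, hb1, hc, Complex.re_mul_ofReal, Complex.norm_real,
        Real.norm_of_nonneg hx.le, hb3]
      ring
    have e4 : c.re = 1 - ‖c - 1‖ ^ 2 / 2 := by rw [hsq]; ring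
    rw [mul_pow, mul_pow, e1, e2, e3, e4]
    exact h
  · obtain ⟨hb1, hc1⟩ := hb
    refine ⟨1, by simp, ?_⟩
    subst hc1
    have h1 : (1 : ℝ) ≤ Real.exp (-(1 / 2) * x * (1 - (1 : ℂ).re ^ 2) + 34 * x ^ 2) := by
      apply Real.one_le_exp
      simp only [Complex.one_re]
      nlinarith [sq_nonneg x]
    have h2 : ‖(1 : ℂ) - x‖ = 1 - x := by
      rw [← Complex.ofReal_one, ← Complex.ofReal_sub, Complex.norm_real, Real.norm_of_nonneg (by linarith)]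
    simp only [one_mul, mul_one, h2]
    nlinarith [sq_nonneg ((1 - x) * (1 - x))]

/-- the factor of a prime dividing the modulus -/
lemma ratio' {c : ℂ} (hc : ‖c‖ = 1) {x : ℝ} (hx : 0 < x) (hx2 : x ≤ 1 / 2) :
    ‖1 - c * x‖ ^ 2 ≤ 9 * (1 - x) ^ 2 := by
  have h1 : ‖1 - c * x‖ ≤ 1 + x := by
    calc ‖1 - c * x‖ ≤ ‖(1 : ℂ)‖ + ‖c * x‖ := norm_sub_le _ _
      _ = 1 + x := by rw [norm_one, norm_mul, hc, Complex.norm_real, Real.norm_of_nonneg hx.le, one_mul]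
  have h2 : 1 + x ≤ 3 * (1 - x) := by linarith
  nlinarith [norm_nonneg (1 - c * (x : ℂ))]

/-- the average over the frequency -/
lemma average (T : Finset ℕ) (hT : ∀ p ∈ T, 8 ≤ p) : ∃ τ ∈ Set.Icc (1 : ℝ) 2,
    (1 / 4) * ∑ p ∈ T, 1 / (p : ℝ) ≤ ∑ p ∈ T, (1 - Real.cos (2 * τ * Real.log p)) / p := by
  rcases T.eq_empty_or_nonempty with h | hne
  · exact ⟨1, ⟨le_rfl, by norm_num⟩, by simp [h]⟩
  by_contra hcon
  push Not at hcon
  have hcont : ∀ p : ℕ, Continuous (fun τ : ℝ => (1 - Real.cos (2 * τ * Real.log p)) / p) := by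
    intro p
    fun_prop
  have hpos : 0 < ∑ p ∈ T, 1 / (p : ℝ) := by
    refine Finset.sum_pos (fun p hp => ?_) hne
    have := hT p hp
    have : (0 : ℝ) < p := by exact_mod_cast (by omega : 0 < p)
    positivity
  have h1 : ∫ τ in (1 : ℝ)..2, ∑ p ∈ T, (1 - Real.cos (2 * τ * Real.log p)) / p ≤
      ∫ τ in (1 : ℝ)..2, (1 / 4) * ∑ p ∈ T, 1 / (p : ℝ) := by
    apply intervalIntegral.integral_mono_on (by norm_num)
    · exact (continuous_finsetSum _ fun p _ => hcont p).intervalIntegrable _ _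
    · exact intervalIntegrable_const
    · intro τ hτ
      exact (hcon τ hτ).le
  rw [intervalIntegral.integral_const, intervalIntegral.integral_finsetSum (fun p _ => (hcont p).intervalIntegrable _ _)] at h1
  have h2 : ∀ p ∈ T, (1 / 2) * (1 / (p : ℝ)) ≤ ∫ τ in (1 : ℝ)..2, (1 - Real.cos (2 * τ * Real.log p)) / p := by
    intro p hp
    have hp8 : (8 : ℝ) ≤ p := by exact_mod_cast hT p hp
    have hl : 2 ≤ Real.log p := by
      have h3 : Real.log 8 ≤ Real.log p := Real.log_le_log (by norm_num) hp8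
      have h4 : Real.log 8 = 3 * Real.log 2 := by
        rw [show (8 : ℝ) = 2 ^ 3 by norm_num, Real.log_pow]
        norm_num
      have := Real.log_two_gt_d9
      linarith
    set ℓ := Real.log p with hℓ
    have hℓ0 : ℓ ≠ 0 := by linarith
    have hder : ∀ τ ∈ Set.uIcc (1 : ℝ) 2, HasDerivAt (fun τ : ℝ => (τ - Real.sin (2 * τ * ℓ) / (2 * ℓ)) / p)
        ((1 - Real.cos (2 * τ * ℓ)) / p) τ := by
      intro τ _
      have h5 : HasDerivAt (fun τ : ℝ => 2 * τ * ℓ) (2 * ℓ) τ := by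
        have := ((hasDerivAt_id τ).const_mul 2).mul_const ℓ
        simpa using this
      have h6 := ((Real.hasDerivAt_sin (2 * τ * ℓ)).comp τ h5).div_const (2 * ℓ)
      have h7 := ((hasDerivAt_id τ).sub h6).div_const (p : ℝ)
      have e : Real.cos (2 * τ * ℓ) * (2 * ℓ) / (2 * ℓ) = Real.cos (2 * τ * ℓ) := by
        field_simp
      rw [e] at h7
      exact h7
    rw [intervalIntegral.integral_eq_sub_of_hasDerivAt hder ((hcont p).intervalIntegrable _ _)]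
    have h8 : Real.sin (2 * 2 * ℓ) / (2 * ℓ) ≤ 1 / 4 := by
      rw [div_le_iff₀ (by linarith)]
      have h10 : Real.sin (2 * 2 * ℓ) ≤ 1 := Real.sin_le_one _
      have h11 : (1 : ℝ) ≤ 1 / 4 * (2 * ℓ) := by linarith
      exact h10.trans h11
    have h9 : -(1 / 4) ≤ Real.sin (2 * 1 * ℓ) / (2 * ℓ) := by
      rw [le_div_iff₀ (by linarith)]
      have h10 : -1 ≤ Real.sin (2 * 1 * ℓ) := Real.neg_one_le_sin _
      have h11 : -(1 / 4) * (2 * ℓ) ≤ (-1 : ℝ) := by linarith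
      exact h11.trans h10
    rw [← sub_div, ← mul_div_assoc, mul_one]
    gcongr
    linarith
  have h3 := Finset.sum_le_sum h2
  rw [← Finset.mul_sum] at h3
  have h4 : (2 - 1 : ℝ) • ((1 / 4) * ∑ p ∈ T, 1 / (p : ℝ)) = (1 / 4) * ∑ p ∈ T, 1 / (p : ℝ) := by
    norm_num
  rw [h4] at h1
  linarith

/-- many primes beyond a given bound -/
lemma many_primes (m : ℕ) (L : ℝ) : ∃ n, m ≤ n ∧
    L ≤ ∑ p ∈ (Finset.range n).filter (fun p => p.Prime ∧ m ≤ p), 1 / (p : ℝ) := by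
  have hf0 : ∀ n, 0 ≤ Set.indicator {p : ℕ | p.Prime} (fun n : ℕ => (1 : ℝ) / n) n := by
    intro n
    apply Set.indicator_nonneg
    intro _ _
    positivity
  have h := (not_summable_iff_tendsto_nat_atTop_of_nonneg hf0).1 not_summable_one_div_on_primes
  have h1 := (h.eventually_ge_atTop (L + ∑ i ∈ Finset.range m,
    Set.indicator {p : ℕ | p.Prime} (fun n : ℕ => (1 : ℝ) / n) i)).and (eventually_ge_atTop m)
  obtain ⟨n, hn, hmn⟩ := h1.exists
  refine ⟨n, hmn, ?_⟩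
  have e1 : ∑ i ∈ Finset.range n, Set.indicator {p : ℕ | p.Prime} (fun n : ℕ => (1 : ℝ) / n) i =
      ∑ i ∈ Finset.range m, Set.indicator {p : ℕ | p.Prime} (fun n : ℕ => (1 : ℝ) / n) i +
      ∑ i ∈ Finset.Ico m n, Set.indicator {p : ℕ | p.Prime} (fun n : ℕ => (1 : ℝ) / n) i :=
    (Finset.sum_range_add_sum_Ico _ hmn).symm
  have e2 : ∑ i ∈ Finset.Ico m n, Set.indicator {p : ℕ | p.Prime} (fun n : ℕ => (1 : ℝ) / n) i =
      ∑ p ∈ (Finset.range n).filter (fun p => p.Prime ∧ m ≤ p), 1 / (p : ℝ) := by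
    classical
    rw [Finset.sum_indicator_eq_sum_filter]
    refine Finset.sum_congr ?_ fun _ _ => rfl
    ext p
    simp only [Finset.mem_filter, Finset.mem_Ico, Set.mem_ofPred_eq, Finset.mem_range]
    tauto
  rw [e1, e2] at hn
  linarith

end Pool.Agent.U955.TU
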