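import Mathlib
import Pool.Agent.U955.TU.Choose

/-! The choice of the frequency and of the values at the small primes: assembly. -/

set_option autoImplicit false

namespace Pool.Agent.U955.TU

open Filter Topology Set

lemma cpow_s0 {p : ℕ} (hp : 0 < p) (τ : ℝ) : (p : ℂ) ^ (-(1 - τ * Complex.I)) =
    (p : ℂ) ^ ((τ : ℂ) * Complex.I) * ((1 / (p : ℝ) : ℝ) : ℂ) := by
  have hp0 : (p : ℂ) ≠ 0 := by exact_mod_cast hp.ne'
  have e : -(1 - (τ : ℂ) * Complex.I) = (τ : ℂ) * Complex.I - 1 := by ring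
  rw [e, Complex.cpow_sub _ _ hp0, Complex.cpow_one]
  push_cast
  ring

lemma norm_c {p : ℕ} (hp : 0 < p) (τ : ℝ) : ‖(p : ℂ) ^ ((τ : ℂ) * Complex.I)‖ = 1 := by
  rw [Complex.norm_natCast_cpow_of_pos hp]
  simp

lemma re_c {p : ℕ} (hp : 0 < p) (τ : ℝ) :
    ((p : ℂ) ^ ((τ : ℂ) * Complex.I)).re = Real.cos (τ * Real.log p) := by
  have hp0 : (p : ℂ) ≠ 0 := by exact_mod_cast hp.ne'
  rw [Complex.cpow_def_of_ne_zero hp0]
  have : Complex.log p * ((τ : ℂ) * Complex.I) = ((τ * Real.log p : ℝ) : ℂ) * Complex.I := by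
    rw [← Complex.ofReal_natCast, ← Complex.ofReal_log (by positivity)]
    push_cast
    ring
  rw [this, Complex.exp_ofReal_mul_I_re]

lemma factor {p : ℕ} (hp : p.Prime) {τ : ℝ} {b : ℂ} {E : ℝ} (hb : ‖b‖ ≤ 1)
    (h : (‖1 - (p : ℂ) ^ ((τ : ℂ) * Complex.I) * ((1 / (p : ℝ) : ℝ) : ℂ)‖ *
        ‖1 - b * ((1 / (p : ℝ) : ℝ) : ℂ)‖) ^ 2 ≤
      Real.exp E * (‖1 - b * (p : ℂ) ^ ((τ : ℂ) * Complex.I) * ((1 / (p : ℝ) : ℝ) : ℂ)‖ *
        (1 - 1 / (p : ℝ))) ^ 2) :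
    ‖(1 - (p : ℂ) ^ (-(1 - τ * Complex.I))) / (1 - b * (p : ℂ) ^ (-(1 - τ * Complex.I)))‖ ^ 2 ≤
      Real.exp E * ‖(1 - 1 / (p : ℂ)) / (1 - b / p)‖ ^ 2 := by
  have hp2 : (2 : ℝ) ≤ p := by exact_mod_cast hp.two_le
  have e1 : b / (p : ℂ) = b * ((1 / (p : ℝ) : ℝ) : ℂ) := by push_cast; ring
  have e2 : ‖1 - 1 / (p : ℂ)‖ = 1 - 1 / (p : ℝ) := by
    have : (1 : ℂ) - 1 / (p : ℂ) = ((1 - 1 / (p : ℝ) : ℝ) : ℂ) := by push_cast; ring
    rw [this, Complex.norm_real, Real.norm_of_nonneg]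
    rw [sub_nonneg, div_le_one (by linarith)]
    linarith
  rw [cpow_s0 hp.pos, norm_div, norm_div, e1, e2, div_pow, div_pow]
  have h1 : 0 < ‖1 - b * ((1 / (p : ℝ) : ℝ) : ℂ)‖ := by
    rw [norm_pos_iff, ← e1]
    exact denom_ne' hp.two_le hb
  have h2 : 0 < ‖1 - b * ((p : ℂ) ^ ((τ : ℂ) * Complex.I) * ((1 / (p : ℝ) : ℝ) : ℂ))‖ := by
    rw [norm_pos_iff, ← mul_assoc]
    have : b * (p : ℂ) ^ ((τ : ℂ) * Complex.I) * ((1 / (p : ℝ) : ℝ) : ℂ) =
        (b * (p : ℂ) ^ ((τ : ℂ) * Complex.I)) / p := by push_cast; ring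
    rw [this]
    apply denom_ne' hp.two_le
    rw [norm_mul, norm_c hp.pos]
    linarith
  rw [← mul_div_assoc, div_le_div_iff₀ (by positivity) (by positivity)]
  rw [← mul_assoc b]
  rw [← mul_assoc b] at h2
  nlinarith [h]

/-- the choice -/
theorem choose (k : ℕ) (hk : 0 < k) (K : ℝ) (hK : 0 ≤ K) : ∃ τ ∈ Set.Icc (1 : ℝ) 2, ∃ S : Finset ℕ, ∃ b : ℕ → ℂ,
    (∀ p ∈ S, p.Prime) ∧ (∀ p, p.Prime → p ∣ k → p ∈ S ∧ b p = 0) ∧
    (∀ p ∈ S, ¬ p ∣ k → ‖b p‖ = 1) ∧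
    K * (τ * ‖ZS S b (1 - τ * Complex.I)‖) < ‖CS S b‖ := by
  classical
  obtain ⟨M, hM⟩ := isCompact_Reg.exists_bound_of_continuousOn (f := riemannZeta)
    (fun s hs => (differentiableAt_riemannZeta (Reg_ne_one hs)).continuousAt.continuousWithinAt)
  have hReg : ∀ τ ∈ Set.Icc (1 : ℝ) 2, (1 - τ * Complex.I) ∈ Reg := by
    intro τ hτ
    simp only [Reg, Set.mem_ofPred_eq, Complex.sub_re, Complex.one_re, Complex.mul_re, Complex.ofReal_re,
      Complex.I_re, Complex.ofReal_im, Complex.I_im, Complex.sub_im, Complex.one_im, Complex.mul_im]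
    have h1 := hτ.1
    have h2 := hτ.2
    refine ⟨by norm_num, by norm_num, by linarith, by linarith⟩
  have hM0 : 0 ≤ M := (norm_nonneg _).trans (hM _ (hReg 1 ⟨le_rfl, by norm_num⟩))
  set M1 : ℝ := K * (2 * M) + 1 with hM1
  have hM1p : 0 < M1 := by positivity
  set B2 : ℝ := ∑' n : ℕ, 1 / (n : ℝ) ^ 2 with hB2
  have hsum : Summable (fun n : ℕ => 1 / (n : ℝ) ^ 2) := Real.summable_one_div_nat_pow.2 (by norm_num)
  have hB20 : 0 ≤ B2 := tsum_nonneg fun n => by positivity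
  obtain ⟨n, hn, hL⟩ := many_primes (k + 9)
    (16 * (2 * Real.log M1 + k * Real.log 9 + 34 * B2 + 1))
  set T := (Finset.range n).filter (fun p => p.Prime ∧ k + 9 ≤ p) with hT
  set S := (Finset.range n).filter (fun p => p.Prime) with hS
  have hTS : T ⊆ S := by
    intro p hp
    rw [hT, Finset.mem_filter] at hp
    rw [hS, Finset.mem_filter]
    exact ⟨hp.1, hp.2.1⟩
  obtain ⟨τ, hτ, hav⟩ := average T (by
    intro p hp
    rw [hT, Finset.mem_filter] at hp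
    omega)
  have hbex : ∀ p : ℕ, ∃ b : ℂ, (p ∣ k → b = 0) ∧ (p.Prime → ¬ p ∣ k → ‖b‖ = 1 ∧
      (‖1 - (p : ℂ) ^ ((τ : ℂ) * Complex.I) * ((1 / (p : ℝ) : ℝ) : ℂ)‖ *
        ‖1 - b * ((1 / (p : ℝ) : ℝ) : ℂ)‖) ^ 2 ≤
      Real.exp (-(1 / 2) * (1 / (p : ℝ)) * (1 - ((p : ℂ) ^ ((τ : ℂ) * Complex.I)).re ^ 2) +
        34 * (1 / (p : ℝ)) ^ 2) * (‖1 - b * (p : ℂ) ^ ((τ : ℂ) * Complex.I) * ((1 / (p : ℝ) : ℝ) : ℂ)‖ *
        (1 - 1 / (p : ℝ))) ^ 2) := by
    intro p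
    by_cases hpk : p ∣ k
    · exact ⟨0, fun _ => rfl, fun _ h => absurd hpk h⟩
    by_cases hp : p.Prime
    · have hp2 : (2 : ℝ) ≤ p := by exact_mod_cast hp.two_le
      obtain ⟨b, hb1, hb2⟩ := ratio (norm_c hp.pos τ) (x := 1 / (p : ℝ)) (by positivity)
        (one_div_le_one_div_of_le (by norm_num) hp2)
      exact ⟨b, fun h => absurd h hpk, fun _ _ => ⟨hb1, hb2⟩⟩
    · exact ⟨0, fun _ => rfl, fun h => absurd h hp⟩
  choose b hb0 hb1 using hbex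
  refine ⟨τ, hτ, S, b, ?_, ?_, ?_, ?_⟩
  · intro p hp
    rw [hS, Finset.mem_filter] at hp
    exact hp.2
  · intro p hp hpk
    refine ⟨?_, hb0 p hpk⟩
    rw [hS, Finset.mem_filter, Finset.mem_range]
    have := Nat.le_of_dvd hk hpk
    exact ⟨by omega, hp⟩
  · intro p hp hpk
    rw [hS, Finset.mem_filter] at hp
    exact (hb1 p hp.2 hpk).1
  -- the exponents
  set E : ℕ → ℝ := fun p => if p ∣ k then Real.log 9 else
    -(1 / 4) * ((1 - Real.cos (2 * τ * Real.log p)) / p) + 34 * (1 / (p : ℝ) ^ 2) with hE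
  have hfac : ∀ p ∈ S, ‖(1 - (p : ℂ) ^ (-(1 - τ * Complex.I))) /
      (1 - b p * (p : ℂ) ^ (-(1 - τ * Complex.I)))‖ ^ 2 ≤
      Real.exp (E p) * ‖(1 - 1 / (p : ℂ)) / (1 - b p / p)‖ ^ 2 := by
    intro p hp
    rw [hS, Finset.mem_filter] at hp
    have hp2 : (2 : ℝ) ≤ p := by exact_mod_cast hp.2.two_le
    have hx : 0 < 1 / (p : ℝ) := by positivity
    have hx2 : 1 / (p : ℝ) ≤ 1 / 2 := one_div_le_one_div_of_le (by norm_num) hp2
    by_cases hpk : p ∣ k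
    · apply factor hp.2
      · rw [hb0 p hpk]; simp
      · simp only [hE, hpk, if_true]
        rw [Real.exp_log (by norm_num), hb0 p hpk]
        simp only [zero_mul, sub_zero, norm_one, mul_one, one_mul]
        exact ratio' (norm_c hp.2.pos τ) hx hx2
    · obtain ⟨h1, h2⟩ := hb1 p hp.2 hpk
      apply factor hp.2 h1.le
      simp only [hE, hpk, if_false]
      convert h2 using 3
      rw [re_c hp.2.pos]
      have h3 : Real.cos (2 * τ * Real.log p) = 2 * Real.cos (τ * Real.log p) ^ 2 - 1 := by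
        rw [mul_assoc, Real.cos_two_mul]
      rw [h3]
      ring
  have hprod : ∏ p ∈ S, ‖(1 - (p : ℂ) ^ (-(1 - τ * Complex.I))) /
      (1 - b p * (p : ℂ) ^ (-(1 - τ * Complex.I)))‖ ^ 2 ≤
      Real.exp (∑ p ∈ S, E p) * ∏ p ∈ S, ‖(1 - 1 / (p : ℂ)) / (1 - b p / p)‖ ^ 2 := by
    rw [Real.exp_sum, ← Finset.prod_mul_distrib]
    exact Finset.prod_le_prod (fun _ _ => by positivity) hfac
  -- the sum of the exponents
  have hEsum : ∑ p ∈ S, E p ≤ -(2 * Real.log M1) - 1 := by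
    have hlog9 : 0 ≤ Real.log 9 := Real.log_nonneg (by norm_num)
    have h1 : ∀ p ∈ S, E p ≤ (if p ∣ k then Real.log 9 else 0) + 34 * (1 / (p : ℝ) ^ 2) +
        (if p ∈ T then -(1 / 4) * ((1 - Real.cos (2 * τ * Real.log p)) / p) else 0) := by
      intro p hp
      rw [hS, Finset.mem_filter] at hp
      have hppos : (0 : ℝ) < p := by exact_mod_cast hp.2.pos
      have hcos : 0 ≤ (1 - Real.cos (2 * τ * Real.log p)) / p := by
        have := Real.cos_le_one (2 * τ * Real.log p)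
        have : 0 ≤ 1 - Real.cos (2 * τ * Real.log p) := by linarith
        positivity
      have hsq : 0 ≤ 34 * (1 / (p : ℝ) ^ 2) := by positivity
      by_cases hpk : p ∣ k
      · have hpT : p ∉ T := by
          rw [hT, Finset.mem_filter]
          intro h
          have := Nat.le_of_dvd hk hpk
          omega
        simp only [hE, hpk, hpT, if_true, if_false]
        linarith
      · simp only [hE, hpk, if_false]
        by_cases hpT : p ∈ T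
        · simp only [hpT, if_true]; linarith
        · simp only [hpT, if_false]; linarith
    refine (Finset.sum_le_sum h1).trans ?_
    rw [Finset.sum_add_distrib, Finset.sum_add_distrib]
    have h2 : ∑ p ∈ S, (if p ∣ k then Real.log 9 else 0) ≤ k * Real.log 9 := by
      rw [← Finset.sum_filter, Finset.sum_const, nsmul_eq_mul]
      have h3 : (S.filter (fun p => p ∣ k)).card ≤ k := by
        have h4 : S.filter (fun p => p ∣ k) ⊆ Finset.Icc 1 k := by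
          intro p hp
          rw [Finset.mem_filter, hS, Finset.mem_filter] at hp
          rw [Finset.mem_Icc]
          exact ⟨hp.1.2.pos, Nat.le_of_dvd hk hp.2⟩
        calc _ ≤ (Finset.Icc 1 k).card := Finset.card_le_card h4
          _ = k := by simp
      have h5 : ((S.filter (fun p => p ∣ k)).card : ℝ) ≤ k := by exact_mod_cast h3
      gcongr
    have h3 : ∑ p ∈ S, 34 * (1 / (p : ℝ) ^ 2) ≤ 34 * B2 := by
      rw [← Finset.mul_sum]
      gcongr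
      exact hsum.sum_le_tsum S (fun n _ => by positivity)
    have h4 : ∑ p ∈ S, (if p ∈ T then -(1 / 4) * ((1 - Real.cos (2 * τ * Real.log p)) / p) else 0) =
        -(1 / 4) * ∑ p ∈ T, (1 - Real.cos (2 * τ * Real.log p)) / p := by
      rw [← Finset.sum_filter, Finset.filter_mem_eq_inter, Finset.inter_eq_right.2 hTS, Finset.mul_sum]
    rw [h4]
    linarith
  have hexp : M1 ^ 2 * Real.exp (∑ p ∈ S, E p) < 1 := by
    have h1 : Real.exp (∑ p ∈ S, E p) ≤ Real.exp (-(2 * Real.log M1) - 1) := Real.exp_le_exp.2 hEsum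
    have h2 : Real.exp (-(2 * Real.log M1) - 1) = (M1 ^ 2)⁻¹ * Real.exp (-1) := by
      rw [sub_eq_add_neg, Real.exp_add, Real.exp_neg, two_mul, Real.exp_add, Real.exp_log hM1p]
      ring
    have h3 : Real.exp (-1) < 1 := by
      rw [Real.exp_lt_one_iff]; norm_num
    calc M1 ^ 2 * Real.exp (∑ p ∈ S, E p) ≤ M1 ^ 2 * ((M1 ^ 2)⁻¹ * Real.exp (-1)) := by
          rw [← h2]; gcongr
      _ = Real.exp (-1) := by field_simp
      _ < 1 := h3
  have hCpos : 0 < ∏ p ∈ S, ‖(1 - 1 / (p : ℂ)) / (1 - b p / p)‖ ^ 2 := by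
    refine Finset.prod_pos fun p hp => ?_
    rw [hS, Finset.mem_filter] at hp
    have h1 : 1 - 1 / (p : ℂ) ≠ 0 := denom_ne' hp.2.two_le (by simp)
    have hbp : ‖b p‖ ≤ 1 := by
      by_cases hpk : p ∣ k
      · rw [hb0 p hpk]; simp
      · exact (hb1 p hp.2 hpk).1.le
    have h2 : 1 - b p / (p : ℂ) ≠ 0 := denom_ne' hp.2.two_le hbp
    have h3 : 0 < ‖(1 - 1 / (p : ℂ)) / (1 - b p / p)‖ := norm_pos_iff.2 (div_ne_zero h1 h2)
    positivity
  have hfin : (K * (τ * ‖ZS S b (1 - τ * Complex.I)‖)) ^ 2 < ‖CS S b‖ ^ 2 := by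
    have e1 : ‖CS S b‖ ^ 2 = ∏ p ∈ S, ‖(1 - 1 / (p : ℂ)) / (1 - b p / p)‖ ^ 2 := by
      rw [CS, norm_prod, Finset.prod_pow]
    have e2 : (K * (τ * ‖ZS S b (1 - τ * Complex.I)‖)) ^ 2 = (K * (τ * ‖riemannZeta (1 - τ * Complex.I)‖)) ^ 2 *
        ∏ p ∈ S, ‖(1 - (p : ℂ) ^ (-(1 - τ * Complex.I))) /
          (1 - b p * (p : ℂ) ^ (-(1 - τ * Complex.I)))‖ ^ 2 := by
      rw [ZS, norm_mul, norm_prod, Finset.prod_pow]
      ring
    rw [e1, e2]
    have h1 : K * (τ * ‖riemannZeta (1 - τ * Complex.I)‖) ≤ M1 := by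
      have h2 := hM _ (hReg τ hτ)
      have h3 : 0 ≤ τ := by linarith [hτ.1]
      calc K * (τ * ‖riemannZeta (1 - τ * Complex.I)‖) ≤ K * (2 * M) := by
            gcongr
            exact hτ.2
        _ ≤ M1 := by rw [hM1]; linarith
    have h0 : 0 ≤ K * (τ * ‖riemannZeta (1 - τ * Complex.I)‖) := by
      have h3 : 0 ≤ τ := by linarith [hτ.1]
      positivity
    calc _ ≤ M1 ^ 2 * (Real.exp (∑ p ∈ S, E p) * ∏ p ∈ S, ‖(1 - 1 / (p : ℂ)) / (1 - b p / p)‖ ^ 2) := by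
          gcongr
      _ = (M1 ^ 2 * Real.exp (∑ p ∈ S, E p)) * ∏ p ∈ S, ‖(1 - 1 / (p : ℂ)) / (1 - b p / p)‖ ^ 2 := by ring
      _ < 1 * ∏ p ∈ S, ‖(1 - 1 / (p : ℂ)) / (1 - b p / p)‖ ^ 2 := by gcongr
      _ = _ := one_mul _
  exact lt_of_pow_lt_pow_left₀ 2 (norm_nonneg _) hfin

end Pool.Agent.U955.TU
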