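import Mathlib
import Pool.Agent.U955.TU.Choose2
import Pool.Agent.U955.TU.Bohr

/-! Zeros of the partial sums to the right of the line `Re s = 1`. -/

set_option autoImplicit false

namespace Pool.Agent.U955.TU

open Filter Topology Set Metric

/-- Existence of zeros of the approximating functions (as in `Pool.Agent.Q185.OK.H`). -/
theorem hurwitz_zero {ι : Type} {l : Filter ι} {U : Set ℂ} {g : ι → ℂ → ℂ} {h : ℂ → ℂ}
    (hd : ∀ᶠ i in l, DifferentiableOn ℂ (g i) U) (hlim : TendstoUniformlyOn g h l U)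
    (hh : ContinuousOn h U) {z : ℂ} {r : ℝ} (hr : 0 < r) (hsub : closedBall z r ⊆ U) (hz : h z = 0)
    (hne : ∀ w ∈ sphere z r, h w ≠ 0) : ∀ᶠ i in l, ∃ x ∈ closedBall z r, g i x = 0 := by
  have hcs : IsCompact (sphere z r) := isCompact_sphere z r
  obtain ⟨δ, hδ, hδ'⟩ : ∃ δ : ℝ, 0 < δ ∧ ∀ w ∈ sphere z r, 2 * δ ≤ ‖h w‖ := by
    rcases (sphere z r).eq_empty_or_nonempty with he | hn
    · exact ⟨1, one_pos, fun w hw => absurd hw (by rw [he]; simp)⟩
    · obtain ⟨w0, hw0, hmin⟩ := hcs.exists_isMinOn hn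
        ((hh.mono (sphere_subset_closedBall.trans hsub)).norm)
      refine ⟨‖h w0‖ / 2, by have := norm_pos_iff.2 (hne w0 hw0); positivity, fun w hw => ?_⟩
      have := hmin hw
      simp only [Set.mem_ofPred_eq] at this
      linarith
  have hK := hlim.mono hsub
  rw [Metric.tendstoUniformlyOn_iff] at hK
  filter_upwards [hd, hK δ hδ] with i hdi hi
  by_contra hcon
  push Not at hcon
  have hdc : DiffContOnCl ℂ (fun w => (g i w)⁻¹) (ball z r) := by
    apply DifferentiableOn.diffContOnCl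
    rw [closure_ball z hr.ne']
    exact (hdi.mono hsub).inv hcon
  have hfr : ∀ w ∈ frontier (ball z r), ‖(g i w)⁻¹‖ ≤ δ⁻¹ := by
    intro w hw
    rw [frontier_ball z hr.ne'] at hw
    rw [norm_inv]
    apply inv_anti₀ hδ
    have h1 := hδ' w hw
    have h2 := hi w (sphere_subset_closedBall hw)
    rw [dist_eq_norm] at h2
    have h3 : ‖h w‖ ≤ ‖h w - g i w‖ + ‖g i w‖ := by
      calc ‖h w‖ = ‖(h w - g i w) + g i w‖ := by rw [sub_add_cancel]
        _ ≤ _ := norm_add_le _ _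
    linarith
  have h4 := Complex.norm_le_of_forall_mem_frontier_norm_le isBounded_ball hdc hfr
    (z := z) (subset_closure (mem_ball_self hr))
  have h5 := hi z (mem_closedBall_self hr.le)
  rw [hz, dist_zero_left] at h5
  have h6 : 0 < ‖g i z‖ := norm_pos_iff.2 (hcon z (mem_closedBall_self hr.le))
  rw [norm_inv] at h4
  have h7 := (inv_le_inv₀ h6 hδ).1 h4
  linarith

/-- the main theorem: zeros of `S_N(s, χ)` with `Re s > 1 + A / log N` for all large `N` -/
theorem main {k : ℕ} (hk : 0 < k) (χ : DirichletCharacter ℂ k) (A : ℝ) (hA : 0 ≤ A) :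
    ∀ᶠ N : ℕ in atTop, ∃ s : ℂ, 1 + A / Real.log N < s.re ∧
      ∑ n ∈ Finset.Icc 1 N, χ (n : ZMod k) * (n : ℂ) ^ (-s) = 0 := by
  classical
  obtain ⟨τ, hτ, S, b, hS, hk0, hk1, hlt⟩ := choose k hk (Real.exp (2 * A)) (Real.exp_pos _).le
  have hbS : ∀ p ∈ S, ‖b p‖ ≤ 1 := by
    intro p hp
    by_cases hpk : p ∣ k
    · rw [(hk0 p (hS p hp) hpk).2]; simp
    · exact (hk1 p hp hpk).le
  obtain ⟨⟨D, hD0, hD⟩, hZc⟩ := asy_all b S hS hbS
  set s0 : ℂ := 1 - τ * Complex.I with hs0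
  have hτ1 : 1 ≤ τ := hτ.1
  have hτ2 : τ ≤ 2 := hτ.2
  have hτ0 : 0 < τ := by linarith
  have hs0re : s0.re = 1 := by simp [hs0]
  have hs0im : s0.im = -τ := by simp [hs0]
  have hs0R : s0 ∈ Reg := by
    simp only [Reg, Set.mem_ofPred_eq, hs0re, hs0im]
    refine ⟨by norm_num, by norm_num, by linarith, by linarith⟩
  have hRn : Reg ∈ 𝓝 s0 := by
    rw [Metric.mem_nhds_iff]
    refine ⟨1 / 4, by norm_num, ?_⟩
    intro s hs
    rw [mem_ball, dist_eq_norm] at hs
    have h1 := (Complex.abs_re_le_norm (s - s0)).trans_lt hs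
    have h2 := (Complex.abs_im_le_norm (s - s0)).trans_lt hs
    rw [Complex.sub_re, hs0re, abs_lt] at h1
    rw [Complex.sub_im, hs0im, abs_lt] at h2
    simp only [Reg, Set.mem_ofPred_eq]
    refine ⟨by linarith [h1.1], by linarith [h1.2], by linarith [h2.1], by linarith [h2.2]⟩
  set Z := ZS S b with hZ
  set C := CS S b with hC
  have hZ0 : Z s0 ≠ 0 := by
    rw [hZ, ZS]
    refine mul_ne_zero (riemannZeta_ne_zero_of_one_le_re hs0re.ge) ?_
    refine Finset.prod_ne_zero_iff.2 fun p hp => div_ne_zero ?_ (denom_ne hs0R (hS p hp).two_le (hbS p hp))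
    have := denom_ne hs0R (hS p hp).two_le (b := 1) (by simp)
    rwa [one_mul] at this
  have hcontZ : ContinuousAt Z s0 := hZc.continuousAt hRn
  have h1s0 : 1 - s0 = τ * Complex.I := by rw [hs0]; ring
  have h1s0' : 1 - s0 ≠ 0 := by
    rw [h1s0]
    exact mul_ne_zero (by exact_mod_cast hτ0.ne') Complex.I_ne_zero
  -- the quotient
  set Q : ℂ := -C / ((1 - s0) * Z s0) with hQ
  have hQA : Real.exp (2 * A) < ‖Q‖ := by
    rw [hQ, norm_div, norm_neg, norm_mul, h1s0, norm_mul, Complex.norm_I, mul_one, Complex.norm_real,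
      Real.norm_of_nonneg hτ0.le, lt_div_iff₀ (by have := norm_pos_iff.2 hZ0; positivity)]
    exact hlt
  have hQn : 1 < ‖Q‖ := (Real.one_le_exp (by linarith)).trans_lt hQA
  have hQ0 : 0 < ‖Q‖ := by linarith
  set w0 : ℝ := Real.log ‖Q‖ with hw0
  have hw0p : 0 < w0 := Real.log_pos hQn
  have hw0A : 2 * A < w0 := by
    rw [hw0, Real.lt_log_iff_exp_lt hQ0]
    exact hQA
  set r : ℝ := min (w0 / 2) 1 with hr
  have hrp : 0 < r := by positivity
  have hr1 : r ≤ 1 := min_le_right _ _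
  have hr2 : r ≤ w0 / 2 := min_le_left _ _
  set R : ℝ := w0 + 2 with hR
  have hRp : 0 < R := by positivity
  set U : Set ℂ := ball 0 R with hU
  have hsub : closedBall (w0 : ℂ) r ⊆ U := by
    intro w hw
    rw [mem_closedBall, dist_eq_norm] at hw
    rw [hU, mem_ball_zero_iff]
    have h1 : ‖w‖ ≤ ‖w - (w0 : ℂ)‖ + ‖(w0 : ℂ)‖ := by
      calc ‖w‖ = ‖(w - (w0 : ℂ)) + (w0 : ℂ)‖ := by rw [sub_add_cancel]
        _ ≤ _ := norm_add_le _ _
    rw [Complex.norm_real, Real.norm_of_nonneg hw0p.le] at h1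
    linarith
  -- the limit function
  set h : ℂ → ℂ := fun w => 1 - ‖Q‖ * Complex.exp (-w) with hh
  have hz : h (w0 : ℂ) = 0 := by
    rw [hh]
    simp only
    rw [← Complex.ofReal_neg, ← Complex.ofReal_exp, Real.exp_neg, hw0, Real.exp_log hQ0,
      ← Complex.ofReal_mul, mul_inv_cancel₀ hQ0.ne']
    simp
  have hne : ∀ w ∈ sphere (w0 : ℂ) r, h w ≠ 0 := by
    intro w hw hw1
    rw [mem_sphere, dist_eq_norm] at hw
    have e1 : Complex.exp (w - w0) = 1 := by
      have h2 : (‖Q‖ : ℂ) * Complex.exp (-w) = 1 := (sub_eq_zero.1 hw1).symm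
      have h3 : Complex.exp (w0 : ℂ) = ‖Q‖ := by
        rw [← Complex.ofReal_exp, hw0, Real.exp_log hQ0]
      rw [← h3, ← Complex.exp_add] at h2
      have h4 : w - w0 = -((w0 : ℂ) + -w) := by ring
      rw [h4, Complex.exp_neg, h2, inv_one]
    rw [Complex.exp_eq_one_iff] at e1
    obtain ⟨n, hn⟩ := e1
    rw [hn, norm_mul, norm_mul, norm_mul, Complex.norm_I, Complex.norm_intCast, Complex.norm_real] at hw
    simp only [Complex.norm_ofNat, mul_one] at hw
    rw [Real.norm_of_nonneg Real.pi_pos.le] at hw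
    have hpi := Real.pi_gt_three
    by_cases hn0 : n = 0
    · rw [hn0] at hw
      simp at hw
      linarith
    · have h5 : (1 : ℝ) ≤ |(n : ℝ)| := by exact_mod_cast Int.one_le_abs hn0
      nlinarith
  have hhc : Continuous h := by
    rw [hh]; fun_prop
  -- the target multiplicative function
  set f : ℕ → ℂ := fun p => bt S b p * (p : ℂ) ^ ((τ : ℂ) * Complex.I) with hf
  have hf0 : ∀ p, p.Prime → p ∣ k → f p = 0 := by
    intro p hp hpk
    obtain ⟨h1, h2⟩ := hk0 p hp hpk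
    simp [hf, bt, h1, h2]
  have hf1 : ∀ p, p.Prime → ¬ p ∣ k → ‖f p‖ = 1 := by
    intro p hp hpk
    rw [hf]
    simp only
    rw [norm_mul, norm_c hp.pos, mul_one, bt]
    by_cases hpS : p ∈ S
    · rw [if_pos hpS]; exact hk1 p hpS hpk
    · rw [if_neg hpS]; simp
  have hcmf : ∀ n : ℕ, n ≠ 0 → cm f n = cm (bt S b) n * (n : ℂ) ^ ((τ : ℂ) * Complex.I) := by
    intro n hn
    rw [hf, cm_mul_fun, cm_cpow _ hn]
  choose t ht using fun N : ℕ => bohr χ f hf0 hf1 N (ε := 1 / ((N : ℝ) + 1) ^ 2) (by positivity)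
  -- the phases
  set θ : ℕ → ℝ := fun N => Complex.arg ((N : ℂ) ^ ((τ : ℂ) * Complex.I) * Q) with hθ
  -- the points
  set sp : ℕ → ℂ → ℂ := fun N w => s0 + (θ N * Complex.I + w) / (Real.log N : ℝ) with hsp
  set G : ℕ → ℂ → ℂ := fun N w => (Z s0)⁻¹ * ∑ n ∈ Finset.Icc 1 N, χ (n : ZMod k) *
    (n : ℂ) ^ (-(sp N w + τ * Complex.I + t N * Complex.I)) with hG
  have hGd : ∀ᶠ N : ℕ in atTop, DifferentiableOn ℂ (G N) U := by
    refine Eventually.of_forall fun N => ?_
    refine Differentiable.differentiableOn ?_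
    rw [hG]
    refine Differentiable.const_mul ?_ _
    refine Differentiable.fun_sum fun n hn => ?_
    refine Differentiable.const_mul ?_ _
    rw [Finset.mem_Icc] at hn
    have hn0 : (n : ℂ) ≠ 0 := by
      have : n ≠ 0 := by omega
      exact_mod_cast this
    intro w
    refine DifferentiableAt.const_cpow ?_ (Or.inl hn0)
    simp only [hsp]
    fun_prop
  have hlogN : Tendsto (fun N : ℕ => Real.log N) atTop atTop :=
    Real.tendsto_log_atTop.comp tendsto_natCast_atTop_atTop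
  set l : Filter (ℕ × ℂ) := atTop ×ˢ 𝓟 U with hl
  have hfst : Tendsto (Prod.fst : ℕ × ℂ → ℕ) l atTop := tendsto_fst
  have hUev : ∀ᶠ q : ℕ × ℂ in l, q.2 ∈ U := by
    rw [hl]
    exact (eventually_principal.2 fun w hw => hw).prod_inr _
  -- the shifts tend to zero
  have hu : Tendsto (fun q : ℕ × ℂ => (θ q.1 * Complex.I + q.2) / ((Real.log q.1 : ℝ) : ℂ)) l (𝓝 0) := by
    have hb1 : Tendsto (fun q : ℕ × ℂ => (Real.pi + R) * (Real.log q.1)⁻¹) l (𝓝 0) := by
      have := ((tendsto_inv_atTop_zero.comp hlogN).comp hfst).const_mul (Real.pi + R)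
      simpa using this
    refine squeeze_zero_norm' ?_ hb1
    have h1 : ∀ᶠ q : ℕ × ℂ in l, 0 < Real.log q.1 := hfst.eventually (hlogN.eventually_gt_atTop 0)
    filter_upwards [h1, hUev] with q hq1 hq2
    rw [norm_div, Complex.norm_real, Real.norm_of_nonneg hq1.le, div_eq_mul_inv]
    gcongr
    rw [hU, mem_ball_zero_iff] at hq2
    calc ‖(θ q.1 : ℂ) * Complex.I + q.2‖ ≤ ‖(θ q.1 : ℂ) * Complex.I‖ + ‖q.2‖ := norm_add_le _ _
      _ ≤ Real.pi + R := by
          rw [norm_mul, Complex.norm_I, mul_one, Complex.norm_real]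
          have : ‖θ q.1‖ ≤ Real.pi := by
            rw [Real.norm_eq_abs, hθ]
            exact Complex.abs_arg_le_pi _
          linarith
  have hspl : Tendsto (fun q : ℕ × ℂ => sp q.1 q.2) l (𝓝 s0) := by
    have := hu.const_add s0
    rw [add_zero] at this
    exact this
  have hReg : ∀ᶠ q : ℕ × ℂ in l, sp q.1 q.2 ∈ Reg := hspl.eventually hRn
  have hNpos : ∀ᶠ q : ℕ × ℂ in l, 2 ≤ q.1 := hfst.eventually (eventually_ge_atTop 2)
  -- the four terms
  have ta : Tendsto (fun q : ℕ × ℂ => G q.1 q.2 - (Z s0)⁻¹ * PS (cm (bt S b)) q.1 (sp q.1 q.2)) l (𝓝 0) := by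
    have hb1 : Tendsto (fun q : ℕ × ℂ => ‖(Z s0)⁻¹‖ * (1 / ((q.1 : ℝ) + 1))) l (𝓝 0) := by
      have := (tendsto_one_div_add_atTop_nhds_zero_nat.comp hfst).const_mul ‖(Z s0)⁻¹‖
      simpa using this
    refine squeeze_zero_norm' ?_ hb1
    filter_upwards [hReg] with q hq
    obtain ⟨N, w⟩ := q
    simp only at hq ⊢
    rw [hG]
    simp only
    rw [← mul_sub, norm_mul]
    gcongr
    rw [PS, Nat.floor_natCast, ← Finset.sum_sub_distrib]
    calc _ ≤ ∑ n ∈ Finset.Icc 1 N, ‖χ (n : ZMod k) * (n : ℂ) ^ (-(sp N w + τ * Complex.I + t N * Complex.I)) -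
          cm (bt S b) n * (n : ℂ) ^ (-(sp N w))‖ := norm_sum_le _ _
      _ ≤ ∑ n ∈ Finset.Icc 1 N, 1 / ((N : ℝ) + 1) ^ 2 := by
          refine Finset.sum_le_sum fun n hn => ?_
          have h1 := ht N n hn
          rw [Finset.mem_Icc] at hn
          have hn0 : (n : ℂ) ≠ 0 := by
            have : n ≠ 0 := by omega
            exact_mod_cast this
          have e1 : χ (n : ZMod k) * (n : ℂ) ^ (-(sp N w + τ * Complex.I + t N * Complex.I)) -
              cm (bt S b) n * (n : ℂ) ^ (-(sp N w)) =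
              (χ (n : ZMod k) * (n : ℂ) ^ (-(t N * Complex.I)) - cm f n) *
                (n : ℂ) ^ (-(sp N w) - τ * Complex.I) := by
            rw [hcmf n (by omega), sub_mul]
            congr 1
            · rw [mul_assoc, ← Complex.cpow_add _ _ hn0]
              congr 2
              ring
            · rw [mul_assoc, ← Complex.cpow_add _ _ hn0]
              congr 2
              ring
          rw [e1, norm_mul]
          have h2 : ‖(n : ℂ) ^ (-(sp N w) - τ * Complex.I)‖ ≤ 1 := by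
            rw [Complex.norm_natCast_cpow_of_pos (by omega)]
            apply Real.rpow_le_one_of_one_le_of_nonpos (by exact_mod_cast hn.1)
            have := hq.1
            simp
            linarith
          calc _ ≤ (1 / ((N : ℝ) + 1) ^ 2) * 1 := by gcongr
            _ = _ := mul_one _
      _ = N * (1 / ((N : ℝ) + 1) ^ 2) := by simp
      _ ≤ 1 / ((N : ℝ) + 1) := by
          rw [mul_one_div, div_le_div_iff₀ (by positivity) (by positivity)]
          have : (0 : ℝ) ≤ N := by positivity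
          nlinarith
  have tb : Tendsto (fun q : ℕ × ℂ => (Z s0)⁻¹ * (PS (cm (bt S b)) q.1 (sp q.1 q.2) - Z (sp q.1 q.2) -
      C * ((q.1 : ℝ) : ℂ) ^ (1 - sp q.1 q.2) / (1 - sp q.1 q.2))) l (𝓝 0) := by
    have hb1 : Tendsto (fun q : ℕ × ℂ => ‖(Z s0)⁻¹‖ * (D * (q.1 : ℝ) ^ (-(1 / 2) : ℝ))) l (𝓝 0) := by
      have h1 : Tendsto (fun N : ℕ => (N : ℝ) ^ (-(1 / 2) : ℝ)) atTop (𝓝 0) :=
        (tendsto_rpow_neg_atTop (by norm_num)).comp tendsto_natCast_atTop_atTop
      have := ((h1.comp hfst).const_mul D).const_mul ‖(Z s0)⁻¹‖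
      simpa using this
    refine squeeze_zero_norm' ?_ hb1
    filter_upwards [hReg, hNpos] with q hq hq2
    rw [norm_mul]
    gcongr
    exact hD _ hq _ (by exact_mod_cast (by omega : 0 < q.1))
  have tc : Tendsto (fun q : ℕ × ℂ => (Z s0)⁻¹ * Z (sp q.1 q.2) - 1) l (𝓝 0) := by
    have h1 := (hcontZ.tendsto.comp hspl).const_mul (Z s0)⁻¹
    have h2 := h1.sub_const 1
    rw [inv_mul_cancel₀ hZ0, sub_self] at h2
    exact h2
  have td : Tendsto (fun q : ℕ × ℂ => (Z s0)⁻¹ * (C * ((q.1 : ℝ) : ℂ) ^ (1 - sp q.1 q.2) / (1 - sp q.1 q.2)) +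
      ‖Q‖ * Complex.exp (-q.2)) l (𝓝 0) := by
    have h1 : Tendsto (fun q : ℕ × ℂ => 1 - (1 - s0) / (1 - sp q.1 q.2)) l (𝓝 0) := by
      have h2 := (hspl.const_sub 1).inv₀ h1s0'
      have h3 := (h2.const_mul (1 - s0)).const_sub 1
      rw [mul_inv_cancel₀ h1s0', sub_self] at h3
      refine h3.congr fun q => ?_
      rw [div_eq_mul_inv]
    have hb1 : Tendsto (fun q : ℕ × ℂ => ‖Q‖ * Real.exp R * ‖1 - (1 - s0) / (1 - sp q.1 q.2)‖) l (𝓝 0) := by
      have := h1.norm.const_mul (‖Q‖ * Real.exp R)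
      simpa using this
    refine squeeze_zero_norm' ?_ hb1
    filter_upwards [hReg, hNpos, hUev] with q hq hq2 hqU
    obtain ⟨N, w⟩ := q
    simp only at hq hq2 hqU ⊢
    have hN0 : (N : ℂ) ≠ 0 := by
      have : N ≠ 0 := by omega
      exact_mod_cast this
    have hlog : Real.log N ≠ 0 := by
      have : 0 < Real.log N := Real.log_pos (by exact_mod_cast (by omega : 1 < N))
      exact this.ne'
    have hsne : 1 - sp N w ≠ 0 := sub_ne_zero.2 (Reg_ne_one hq).symm
    have e1 : ((N : ℝ) : ℂ) ^ (1 - sp N w) = (N : ℂ) ^ ((τ : ℂ) * Complex.I) *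
        Complex.exp (-(θ N * Complex.I)) * Complex.exp (-w) := by
      rw [Complex.ofReal_natCast, Complex.cpow_def_of_ne_zero hN0, Complex.cpow_def_of_ne_zero hN0,
        ← Complex.exp_add, ← Complex.exp_add]
      congr 1
      have hlc : Complex.log (N : ℂ) = ((Real.log N : ℝ) : ℂ) := by
        rw [← Complex.ofReal_natCast, ← Complex.ofReal_log (by positivity)]
      rw [hlc]
      have hlogc : ((Real.log N : ℝ) : ℂ) ≠ 0 := by exact_mod_cast hlog
      simp only [hsp]
      rw [show (1 : ℂ) - (s0 + (θ N * Complex.I + w) / ((Real.log N : ℝ) : ℂ)) =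
        (1 - s0) - (θ N * Complex.I + w) / ((Real.log N : ℝ) : ℂ) by ring, h1s0]
      field_simp
      ring
    have e2 : (N : ℂ) ^ ((τ : ℂ) * Complex.I) * Q * Complex.exp (-(θ N * Complex.I)) = ‖Q‖ := by
      have h3 := Complex.norm_mul_exp_arg_mul_I ((N : ℂ) ^ ((τ : ℂ) * Complex.I) * Q)
      rw [norm_mul, norm_c (by omega), one_mul] at h3
      have h4 : Complex.arg ((N : ℂ) ^ ((τ : ℂ) * Complex.I) * Q) = θ N := rfl
      rw [h4] at h3
      rw [← h3, mul_assoc, ← Complex.exp_add]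
      simp
    have e3 : (Z s0)⁻¹ * C = -(1 - s0) * Q := by
      rw [hQ]
      field_simp
    have e4 : (Z s0)⁻¹ * (C * ((N : ℝ) : ℂ) ^ (1 - sp N w) / (1 - sp N w)) + ‖Q‖ * Complex.exp (-w) =
        ‖Q‖ * Complex.exp (-w) * (1 - (1 - s0) / (1 - sp N w)) := by
      have e5 : (Z s0)⁻¹ * (C * ((N : ℝ) : ℂ) ^ (1 - sp N w) / (1 - sp N w)) =
          ((Z s0)⁻¹ * C) * ((N : ℝ) : ℂ) ^ (1 - sp N w) / (1 - sp N w) := by ring
      rw [e5, e3, e1]
      have e6 : -(1 - s0) * Q * ((N : ℂ) ^ ((τ : ℂ) * Complex.I) *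
          Complex.exp (-(θ N * Complex.I)) * Complex.exp (-w)) / (1 - sp N w) =
          -(1 - s0) * ((N : ℂ) ^ ((τ : ℂ) * Complex.I) * Q * Complex.exp (-(θ N * Complex.I))) *
            Complex.exp (-w) / (1 - sp N w) := by ring
      rw [e6, e2]
      ring
    rw [e4, norm_mul, norm_mul]
    have h5 : ‖((‖Q‖ : ℝ) : ℂ)‖ = ‖Q‖ := by rw [Complex.norm_real, norm_norm]
    have h6 : ‖Complex.exp (-w)‖ ≤ Real.exp R := by
      rw [Complex.norm_exp]
      apply Real.exp_le_exp.2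
      rw [hU, mem_ball_zero_iff] at hqU
      have := Complex.abs_re_le_norm w
      have := neg_abs_le w.re
      rw [Complex.neg_re]
      linarith
    rw [h5]
    gcongr
  have htot : Tendsto (fun q : ℕ × ℂ => G q.1 q.2 - h q.2) l (𝓝 0) := by
    have := ((ta.add tb).add tc).add td
    rw [add_zero, add_zero, add_zero] at this
    refine this.congr fun q => ?_
    rw [hh]
    simp only
    ring
  have hunif : TendstoUniformlyOn G h atTop U := by
    rw [Metric.tendstoUniformlyOn_iff]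
    intro ε hε
    have h1 := (Metric.tendsto_nhds.1 htot) ε hε
    rw [hl, Filter.eventually_prod_principal_iff] at h1
    filter_upwards [h1] with N hN w hw
    have := hN w hw
    rw [dist_zero_right] at this
    rw [dist_comm, dist_eq_norm]
    exact this
  have hfin := hurwitz_zero hGd hunif hhc.continuousOn hrp hsub hz hne
  filter_upwards [hfin, eventually_ge_atTop 2] with N hN hN2
  obtain ⟨w, hw, hw0'⟩ := hN
  refine ⟨sp N w + τ * Complex.I + t N * Complex.I, ?_, ?_⟩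
  · have hlog : 0 < Real.log N := Real.log_pos (by exact_mod_cast (by omega : 1 < N))
    have hwre : A < w.re := by
      rw [mem_closedBall, dist_eq_norm] at hw
      have h1 := (Complex.abs_re_le_norm (w - w0)).trans hw
      rw [Complex.sub_re, Complex.ofReal_re, abs_le] at h1
      linarith [h1.1]
    have e : (sp N w + τ * Complex.I + t N * Complex.I).re = 1 + w.re / Real.log N := by
      simp only [hsp, Complex.add_re, hs0re, Complex.div_ofReal_re, Complex.mul_re, Complex.ofReal_re,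
        Complex.I_re, Complex.ofReal_im, Complex.I_im]
      ring
    rw [e]
    gcongr
  · have h1 : (Z s0)⁻¹ ≠ 0 := inv_ne_zero hZ0
    have h2 : (Z s0)⁻¹ * ∑ n ∈ Finset.Icc 1 N, χ (n : ZMod k) *
      (n : ℂ) ^ (-(sp N w + τ * Complex.I + t N * Complex.I)) = 0 := hw0'
    exact (mul_eq_zero.1 h2).resolve_left h1

end Pool.Agent.U955.TU
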